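import Pool.Agent.Helper9.SR.Classes

/-!
# Towers of square roots: elements, values, and the test for being nonnegative
-/

set_option autoImplicit false

namespace Pool.Agent.Helper9.SR

open N68a2faeb Pool.Agent.Helper36.PT Pool.Agent.Helper73.ETSP

variable {α β γ : Type} [Enc α] [Enc β] [Enc γ]

/-! ### operations on binary integers -/

/-- product -/
def zMul (x y : BZ) : BZ := BZ.mk (x.val * y.val)

/-- sum of a list -/
def zSum (l : List BZ) : BZ := BZ.mk (l.map BZ.val).sum

/-- comparison with zero -/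
def zNonneg (x : BZ) : Prop := 0 ≤ x.val

@[fun_prop] theorem PolyTime.zMul {f g : α → BZ} (hf : PolyTime f) (hg : PolyTime g) :
    PolyTime (fun a => zMul (f a) (g a)) := PolyTime.bzMul hf hg

@[fun_prop] theorem PolyTime.zNonneg {f : α → BZ} (hf : PolyTime f) :
    PolyTime (fun a => zNonneg (f a)) :=
  PolyTime.pBzLe (f := fun _ => BZ.mk 0) (PolyTime.const _) hf

theorem sum_parts (l : List BZ) : (l.map BZ.val).sum =
    (((l.map (fun x => BN.mk x.val.toNat)).map BN.val).sum : ℤ) -
      (((l.map (fun x => BN.mk (-x.val).toNat)).map BN.val).sum : ℤ) := by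
  induction l with
  | nil => rfl
  | cons x l ih =>
    simp only [List.map_cons, List.sum_cons, ih]
    push_cast
    have h : x.val = (x.val.toNat : ℤ) - ((-x.val).toNat : ℤ) := by omega
    linarith

@[fun_prop] theorem PolyTime.zSum {l : α → List BZ} (hl : PolyTime l) :
    PolyTime (fun a => zSum (l a)) := by
  have h1 : PolyTime (fun p : α × BZ => BN.mk p.2.val.toNat) := PolyTime.bzToNat PolyTime.snd
  have h2 : PolyTime (fun p : α × BZ => BN.mk (-p.2.val).toNat) :=
    PolyTime.bzNegToNat PolyTime.snd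
  have h3 := PolyTime.bzDiff
    (PolyTime.bnSum (PolyTime.map (f := fun _ x => BN.mk x.val.toNat) hl h1))
    (PolyTime.bnSum (PolyTime.map (f := fun _ x => BN.mk (-x.val).toNat) hl h2))
  refine h3.congr fun a => ?_
  exact congrArg BZ.mk (sum_parts (l a)).symm

/-! ### elements -/

/-- Elements: at level zero lists of pairs `(r, b)`, which stand for the sum of the numbers
`r / sqrt b`; at level `T + 1` pairs `(u, v)`, which stand for `u + v * sqrt A`. -/
def El : ℕ → Type
  | 0 => List (BZ × ℕ)
  | T + 1 => El T × El T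

/-- encodings -/
def encEl : ∀ T, El T → List Bool
  | 0 => fun u => enc (α := List (BZ × ℕ)) u
  | T + 1 => fun u => fr (encEl T u.1) ++ encEl T u.2

instance instEncEl (T : ℕ) : Enc (El T) := ⟨encEl T⟩

theorem PolyTime.toEl0 {f : α → List (BZ × ℕ)} (hf : PolyTime f) :
    PolyTime (fun a => (f a : El 0)) := hf

theorem PolyTime.ofEl0 {f : α → El 0} (hf : PolyTime f) :
    PolyTime (β := List (BZ × ℕ)) f := hf

theorem PolyTime.toElS {T : ℕ} {f g : α → El T} (hf : PolyTime f) (hg : PolyTime g) :
    PolyTime (fun a => ((f a, g a) : El (T + 1))) := PolyTime.pair hf hg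

theorem PolyTime.elFst {T : ℕ} {f : α → El (T + 1)} (hf : PolyTime f) :
    PolyTime (fun a => ((f a).1 : El T)) :=
  PolyTime.comp (g := fun p : El T × El T => p.1) (f := f) PolyTime.fst hf

theorem PolyTime.elSnd {T : ℕ} {f : α → El (T + 1)} (hf : PolyTime f) :
    PolyTime (fun a => ((f a).2 : El T)) :=
  PolyTime.comp (g := fun p : El T × El T => p.2) (f := f) PolyTime.snd hf

/-- zero -/
def zeroE : ∀ T, El T
  | 0 => ([] : List (BZ × ℕ))
  | T + 1 => (zeroE T, zeroE T)

/-- integers -/
def cstE : ∀ T, BZ → El T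
  | 0, x => ([(x, 1)] : List (BZ × ℕ))
  | T + 1, x => (cstE T x, zeroE T)

/-- sum -/
def addE : ∀ T, El T → El T → El T
  | 0, u, v => List.append (α := BZ × ℕ) u v
  | T + 1, u, v => (addE T u.1 v.1, addE T u.2 v.2)

/-- integral multiples of lists -/
def smulL (c : BZ) (u : List (BZ × ℕ)) : List (BZ × ℕ) := u.map fun p => (zMul c p.1, p.2)

/-- products of lists -/
def mulL (u v : List (BZ × ℕ)) : List (BZ × ℕ) :=
  u.flatMap fun p => v.map fun q => (zMul p.1 q.1, p.2 * q.2)

/-- integral multiples -/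
def smulE : ∀ T, BZ → El T → El T
  | 0, c, u => smulL c u
  | T + 1, c, u => (smulE T c u.1, smulE T c u.2)

/-- the radicand of level `T` -/
def rad (A : List BN) (T : ℕ) : BZ := zOf (A.getD T (BN.mk 0))

/-- products -/
def mulE : ∀ T, List BN → El T → El T → El T
  | 0, _, u, v => mulL u v
  | T + 1, A, u, v => (addE T (mulE T A u.1 v.1) (smulE T (rad A T) (mulE T A u.2 v.2)),
      addE T (mulE T A u.1 v.2) (mulE T A u.2 v.1))

/-- `u ^ 2 - A * v ^ 2` -/
def discE (T : ℕ) (A : List BN) (u v : El T) : El T :=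
  addE T (mulE T A u u) (smulE T (zNeg (rad A T)) (mulE T A v v))

/-- the value of a list -/
noncomputable def valL (u : List (BZ × ℕ)) : ℝ :=
  (u.map fun p => (p.1.val : ℝ) * (Real.sqrt (p.2 : ℝ))⁻¹).sum

/-- the value of an element -/
noncomputable def valE : ∀ T, List BN → El T → ℝ
  | 0, _, u => valL u
  | T + 1, A, u => valE T A u.1 + valE T A u.2 * Real.sqrt ((rad A T).val : ℝ)

theorem rad_nonneg (A : List BN) (T : ℕ) : (0 : ℝ) ≤ ((rad A T).val : ℝ) := by
  unfold rad zOf
  simp

theorem valE_zero (T : ℕ) (A : List BN) : valE T A (zeroE T) = 0 := by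
  induction T with
  | zero => rfl
  | succ T ih =>
    change valE T A (zeroE T) + valE T A (zeroE T) * _ = 0
    rw [ih]
    ring

theorem valE_cst (T : ℕ) (A : List BN) (x : BZ) : valE T A (cstE T x) = (x.val : ℝ) := by
  induction T with
  | zero =>
    change valL [(x, 1)] = _
    simp [valL]
  | succ T ih =>
    change valE T A (cstE T x) + valE T A (zeroE T) * _ = _
    rw [ih, valE_zero]
    ring

theorem valE_add (T : ℕ) (A : List BN) (u v : El T) :
    valE T A (addE T u v) = valE T A u + valE T A v := by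
  induction T with
  | zero =>
    change valL (List.append (α := BZ × ℕ) u v) = valL u + valL v
    have h : ∀ u v : List (BZ × ℕ), valL (u ++ v) = valL u + valL v := by
      intro u v
      unfold valL
      rw [List.map_append, List.sum_append]
    exact h u v
  | succ T ih =>
    change valE T A (addE T u.1 v.1) + valE T A (addE T u.2 v.2) * _ =
      (valE T A u.1 + valE T A u.2 * _) + (valE T A v.1 + valE T A v.2 * _)
    rw [ih, ih]
    ring

theorem valL_smul (c : BZ) (u : List (BZ × ℕ)) : valL (smulL c u) = (c.val : ℝ) * valL u := by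
  unfold valL smulL
  induction u with
  | nil => simp
  | cons p u ih =>
    simp only [List.map_cons, List.sum_cons] at ih ⊢
    rw [ih]
    unfold zMul
    push_cast
    ring

theorem valE_smul (T : ℕ) (A : List BN) (c : BZ) (u : El T) :
    valE T A (smulE T c u) = (c.val : ℝ) * valE T A u := by
  induction T with
  | zero => exact valL_smul c u
  | succ T ih =>
    change valE T A (smulE T c u.1) + valE T A (smulE T c u.2) * _ =
      (c.val : ℝ) * (valE T A u.1 + valE T A u.2 * _)
    rw [ih, ih]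
    ring

theorem valL_mul (u v : List (BZ × ℕ)) : valL (mulL u v) = valL u * valL v := by
  have h : ∀ (p : BZ × ℕ) (v : List (BZ × ℕ)),
      valL (v.map fun q => (zMul p.1 q.1, p.2 * q.2)) =
        ((p.1.val : ℝ) * (Real.sqrt (p.2 : ℝ))⁻¹) * valL v := by
    intro p v
    unfold valL
    induction v with
    | nil => simp
    | cons q v ih =>
      simp only [List.map_cons, List.sum_cons] at ih ⊢
      rw [ih]
      unfold zMul
      push_cast
      rw [Real.sqrt_mul (Nat.cast_nonneg _), mul_inv]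
      ring
  have h2 : ∀ u v : List (BZ × ℕ), valL (u ++ v) = valL u + valL v := by
    intro u v
    unfold valL
    rw [List.map_append, List.sum_append]
  induction u with
  | nil => simp [mulL, valL]
  | cons p u ih =>
    have e : mulL (p :: u) v = (v.map fun q => (zMul p.1 q.1, p.2 * q.2)) ++ mulL u v := rfl
    rw [e, h2, h, ih]
    have e2 : valL (p :: u) = (p.1.val : ℝ) * (Real.sqrt (p.2 : ℝ))⁻¹ + valL u := rfl
    rw [e2]
    ring

theorem valE_mul (T : ℕ) (A : List BN) (u v : El T) :
    valE T A (mulE T A u v) = valE T A u * valE T A v := by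
  induction T with
  | zero => exact valL_mul u v
  | succ T ih =>
    change valE T A (addE T (mulE T A u.1 v.1) (smulE T (rad A T) (mulE T A u.2 v.2))) +
      valE T A (addE T (mulE T A u.1 v.2) (mulE T A u.2 v.1)) * Real.sqrt ((rad A T).val : ℝ) =
      (valE T A u.1 + valE T A u.2 * Real.sqrt ((rad A T).val : ℝ)) *
        (valE T A v.1 + valE T A v.2 * Real.sqrt ((rad A T).val : ℝ))
    simp only [valE_add, valE_smul, ih]
    have hs := Real.mul_self_sqrt (rad_nonneg A T)
    linear_combination (-(valE T A u.2 * valE T A v.2)) * hs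

theorem valE_disc (T : ℕ) (A : List BN) (u v : El T) : valE T A (discE T A u v) =
    valE T A u ^ 2 - ((rad A T).val : ℝ) * valE T A v ^ 2 := by
  unfold discE
  rw [valE_add, valE_smul, valE_mul, valE_mul]
  unfold zNeg
  push_cast
  ring

/-! ### the test -/

/-- The test for being nonnegative, given a test `t` for lists. -/
def nnE : ∀ T, List BN → (List (BZ × ℕ) → Prop) → El T → Prop
  | 0, _, t, u => t u
  | T + 1, A, t, u => (nnE T A t u.1 ∧ nnE T A t u.2) ∨
      (nnE T A t u.1 ∧ nnE T A t (discE T A u.1 u.2)) ∨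
      (nnE T A t u.2 ∧ nnE T A t (smulE T (BZ.mk (-1)) (discE T A u.1 u.2)))

/-- The lists which are tested. -/
def baseE : ∀ T, List BN → El T → List (List (BZ × ℕ))
  | 0, _, u => [u]
  | T + 1, A, u => baseE T A u.1 ++ (baseE T A u.2 ++ (baseE T A (discE T A u.1 u.2) ++
      baseE T A (smulE T (BZ.mk (-1)) (discE T A u.1 u.2))))

theorem nonneg_iff (x y a : ℝ) (ha : 0 ≤ a) : 0 ≤ x + y * Real.sqrt a ↔
    (0 ≤ x ∧ 0 ≤ y) ∨ (0 ≤ x ∧ 0 ≤ x ^ 2 - a * y ^ 2) ∨
      (0 ≤ y ∧ 0 ≤ -1 * (x ^ 2 - a * y ^ 2)) := by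
  have hs := Real.sq_sqrt ha
  have hs0 := Real.sqrt_nonneg a
  obtain ⟨s, hs'⟩ : ∃ s, s = Real.sqrt a := ⟨_, rfl⟩
  rw [← hs'] at hs hs0 ⊢
  rw [← hs]
  constructor
  · intro h
    by_cases hx : 0 ≤ x
    · by_cases hy : 0 ≤ y
      · exact Or.inl ⟨hx, hy⟩
      · push Not at hy
        refine Or.inr (Or.inl ⟨hx, ?_⟩)
        have h1 : -(y * s) ≤ x := by linarith
        have h2 : 0 ≤ -(y * s) := by nlinarith
        nlinarith
    · push Not at hx
      have hy : 0 ≤ y := by
        by_contra hy
        push Not at hy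
        nlinarith
      refine Or.inr (Or.inr ⟨hy, ?_⟩)
      have h1 : -x ≤ y * s := by linarith
      nlinarith
  · rintro (⟨hx, hy⟩ | ⟨hx, h⟩ | ⟨hy, h⟩)
    · positivity
    · have h1 : (y * s) ^ 2 ≤ x ^ 2 := by nlinarith
      have h2 := abs_le_of_sq_le_sq' h1 hx
      linarith [h2.1]
    · have h1 : x ^ 2 ≤ (y * s) ^ 2 := by nlinarith
      have h2 := abs_le_of_sq_le_sq' h1 (mul_nonneg hy hs0)
      linarith [h2.1]

theorem nnE_iff (T : ℕ) (A : List BN) (t : List (BZ × ℕ) → Prop) (u : El T)
    (h : ∀ l ∈ baseE T A u, (t l ↔ 0 ≤ valL l)) : nnE T A t u ↔ 0 ≤ valE T A u := by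
  induction T with
  | zero => exact h u (List.mem_singleton.mpr rfl)
  | succ T ih =>
    change ∀ l ∈ baseE T A u.1 ++ (baseE T A u.2 ++ (baseE T A (discE T A u.1 u.2) ++
      baseE T A (smulE T (BZ.mk (-1)) (discE T A u.1 u.2)))), (t l ↔ 0 ≤ valL l) at h
    simp only [List.mem_append] at h
    change (nnE T A t u.1 ∧ nnE T A t u.2) ∨
      (nnE T A t u.1 ∧ nnE T A t (discE T A u.1 u.2)) ∨
      (nnE T A t u.2 ∧ nnE T A t (smulE T (BZ.mk (-1)) (discE T A u.1 u.2))) ↔
      0 ≤ valE T A u.1 + valE T A u.2 * Real.sqrt ((rad A T).val : ℝ)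
    rw [nonneg_iff _ _ _ (rad_nonneg A T), ih u.1 (fun l hl => h l (Or.inl hl)),
      ih u.2 (fun l hl => h l (Or.inr (Or.inl hl))),
      ih (discE T A u.1 u.2) (fun l hl => h l (Or.inr (Or.inr (Or.inl hl)))),
      ih (smulE T (BZ.mk (-1)) (discE T A u.1 u.2))
        (fun l hl => h l (Or.inr (Or.inr (Or.inr hl)))), valE_smul, valE_disc]
    push_cast
    rfl

/-! ### polynomial time -/

theorem PolyTime.rad {A : α → List BN} (hA : PolyTime A) (T : ℕ) :
    PolyTime (fun a => rad (A a) T) := by
  have := arith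
  unfold Pool.Agent.Helper9.SR.rad
  fun_prop

theorem PolyTime.addE (T : ℕ) {u v : α → El T} (hu : PolyTime u) (hv : PolyTime v) :
    PolyTime (fun a => addE T (u a) (v a)) := by
  induction T with
  | zero => exact PolyTime.append (PolyTime.ofEl0 hu) (PolyTime.ofEl0 hv)
  | succ T ih =>
    exact PolyTime.toElS (ih (PolyTime.elFst hu) (PolyTime.elFst hv))
      (ih (PolyTime.elSnd hu) (PolyTime.elSnd hv))

theorem PolyTime.smulL {c : α → BZ} {u : α → List (BZ × ℕ)} (hc : PolyTime c) (hu : PolyTime u) :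
    PolyTime (fun a => smulL (c a) (u a)) := by
  unfold Pool.Agent.Helper9.SR.smulL
  fun_prop

theorem PolyTime.mulL {u v : α → List (BZ × ℕ)} (hu : PolyTime u) (hv : PolyTime v) :
    PolyTime (fun a => mulL (u a) (v a)) := by
  unfold Pool.Agent.Helper9.SR.mulL
  fun_prop

theorem PolyTime.smulE (T : ℕ) {c : α → BZ} {u : α → El T} (hc : PolyTime c) (hu : PolyTime u) :
    PolyTime (fun a => smulE T (c a) (u a)) := by
  induction T with
  | zero => exact PolyTime.smulL hc (PolyTime.ofEl0 hu)
  | succ T ih => exact PolyTime.toElS (ih (PolyTime.elFst hu)) (ih (PolyTime.elSnd hu))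

theorem PolyTime.mulE (T : ℕ) {A : α → List BN} {u v : α → El T} (hA : PolyTime A)
    (hu : PolyTime u) (hv : PolyTime v) :
    PolyTime (fun a => mulE T (A a) (u a) (v a)) := by
  induction T with
  | zero => exact PolyTime.mulL (PolyTime.ofEl0 hu) (PolyTime.ofEl0 hv)
  | succ T ih =>
    have u1 := PolyTime.elFst hu
    have u2 := PolyTime.elSnd hu
    have v1 := PolyTime.elFst hv
    have v2 := PolyTime.elSnd hv
    exact PolyTime.toElS
      (PolyTime.addE T (ih u1 v1) (PolyTime.smulE T (PolyTime.rad hA T) (ih u2 v2)))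
      (PolyTime.addE T (ih u1 v2) (ih u2 v1))

theorem PolyTime.discE (T : ℕ) {A : α → List BN} {u v : α → El T} (hA : PolyTime A)
    (hu : PolyTime u) (hv : PolyTime v) :
    PolyTime (fun a => discE T (A a) (u a) (v a)) :=
  PolyTime.addE T (PolyTime.mulE T hA hu hu)
    (PolyTime.smulE T (PolyTime.bzNeg (PolyTime.rad hA T)) (PolyTime.mulE T hA hv hv))

theorem PolyTime.zeroE (T : ℕ) : PolyTime (fun _ : α => zeroE T) := PolyTime.const _

theorem PolyTime.cstE (T : ℕ) {x : α → BZ} (hx : PolyTime x) :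
    PolyTime (fun a => cstE T (x a)) := by
  induction T with
  | zero =>
    have h : PolyTime (fun a => ([(x a, 1)] : List (BZ × ℕ))) := by fun_prop
    exact h
  | succ T ih => exact PolyTime.toElS ih (PolyTime.zeroE T)

theorem PolyTime.nnE (T : ℕ) {A : α → List BN} {t : α → List (BZ × ℕ) → Prop} {u : α → El T}
    (hA : PolyTime A) (ht : ∀ l : α → List (BZ × ℕ), PolyTime l → PolyTime (fun a => t a (l a)))
    (hu : PolyTime u) : PolyTime (fun a => nnE T (A a) (t a) (u a)) := by
  induction T with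
  | zero => exact ht _ (PolyTime.ofEl0 hu)
  | succ T ih =>
    have u1 := PolyTime.elFst hu
    have u2 := PolyTime.elSnd hu
    have d := PolyTime.discE T hA u1 u2
    have d' := PolyTime.smulE T (PolyTime.const (BZ.mk (-1))) d
    exact ((ih u1).pAnd (ih u2)).pOr (((ih u1).pAnd (ih d)).pOr ((ih u2).pAnd (ih d')))

theorem PolyTime.baseE (T : ℕ) {A : α → List BN} {u : α → El T} (hA : PolyTime A)
    (hu : PolyTime u) : PolyTime (fun a => baseE T (A a) (u a)) := by
  induction T with
  | zero =>
    have h : PolyTime (fun a => ([(u a : List (BZ × ℕ))] : List (List (BZ × ℕ)))) :=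
      PolyTime.singleton (PolyTime.ofEl0 hu)
    exact h
  | succ T ih =>
    have u1 := PolyTime.elFst hu
    have u2 := PolyTime.elSnd hu
    have d := PolyTime.discE T hA u1 u2
    have d' := PolyTime.smulE T (PolyTime.const (BZ.mk (-1))) d
    exact (ih u1).append ((ih u2).append ((ih d).append (ih d')))

end Pool.Agent.Helper9.SR
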