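import Pool.Agent.Helper9.SR.Round
import Pool.Agent.Helper9.SR.Elem

/-!
# The advice: integral weights instead of square roots
-/

set_option autoImplicit false

namespace Pool.Agent.Helper9.SR

open N68a2faeb Pool.Agent.Helper36.PT Pool.Agent.Helper73.ETSP

variable {α β γ : Type} [Enc α] [Enc β] [Enc γ]

/-- the test with the weights `w` -/
def tst (w : List BZ) (u : List (BZ × ℕ)) : Prop :=
  zNonneg (zSum (u.map fun p => zMul p.1 (w.getD p.2 (BZ.mk 0))))

theorem PolyTime.tst {w : α → List BZ} {u : α → List (BZ × ℕ)} (hw : PolyTime w)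
    (hu : PolyTime u) : PolyTime (fun a => tst (w a) (u a)) := by
  unfold Pool.Agent.Helper9.SR.tst
  fun_prop

/-- the coefficients of a list -/
def cof (u : List (BZ × ℕ)) (b : ℕ) : ℤ := (u.map fun p => if p.2 = b then p.1.val else 0).sum

theorem cof_cons (p : BZ × ℕ) (u : List (BZ × ℕ)) (b : ℕ) :
    cof (p :: u) b = (if p.2 = b then p.1.val else 0) + cof u b := rfl

theorem sum_cof {R : Type} [CommRing R] (s : ℕ) (x : ℕ → R) (u : List (BZ × ℕ))
    (h : ∀ p ∈ u, p.2 ≤ s) : ∑ b : Fin (s + 1), (cof u b : R) * x b =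
      (u.map fun p => (p.1.val : R) * x p.2).sum := by
  induction u with
  | nil => simp [cof]
  | cons p u ih =>
    have hp : p.2 ≤ s := h p (List.mem_cons_self ..)
    rw [List.map_cons, List.sum_cons, ← ih (fun q hq => h q (List.mem_cons_of_mem _ hq))]
    have h1 : ∑ b : Fin (s + 1), (((if p.2 = (b : ℕ) then p.1.val else 0 : ℤ)) : R) * x b =
        (p.1.val : R) * x p.2 := by
      rw [Finset.sum_eq_single (⟨p.2, by omega⟩ : Fin (s + 1))]
      · simp
      · intro b _ hb
        have : p.2 ≠ (b : ℕ) := by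
          intro h2
          exact hb (Fin.ext h2.symm)
        simp [this]
      · intro h2
        exact absurd (Finset.mem_univ _) h2
    rw [← h1, ← Finset.sum_add_distrib]
    refine Finset.sum_congr rfl fun b _ => ?_
    rw [cof_cons]
    push_cast
    ring

theorem two_pow_add (a b : ℕ) : 2 ^ a + 2 ^ b ≤ 2 ^ (a + b + 1) := by
  have h1 : 2 ^ a ≤ 2 ^ (a + b) := Nat.pow_le_pow_right (by norm_num) (by omega)
  have h2 : 2 ^ b ≤ 2 ^ (a + b) := Nat.pow_le_pow_right (by norm_num) (by omega)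
  rw [pow_succ]
  omega

theorem esz_bz (z : BZ) : esz z = 2 * z.val.toNat.size + 1 + (-z.val).toNat.size := by
  have h : esz z = esz ((BN.mk z.val.toNat, BN.mk (-z.val).toNat) : BN × BN) := by
    unfold esz
    rw [enc_bz]
  rw [h, esz_pair, esz_bn, esz_bn]

theorem natAbs_lt (z : BZ) : z.val.natAbs < 2 ^ esz z := by
  rw [esz_bz]
  have h1 : z.val.toNat < 2 ^ (2 * z.val.toNat.size + 1 + (-z.val).toNat.size) :=
    lt_of_lt_of_le (Nat.lt_size_self _) (Nat.pow_le_pow_right (by norm_num) (by omega))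
  have h2 : (-z.val).toNat < 2 ^ (2 * z.val.toNat.size + 1 + (-z.val).toNat.size) :=
    lt_of_lt_of_le (Nat.lt_size_self _) (Nat.pow_le_pow_right (by norm_num) (by omega))
  omega

theorem esz_bz_le {z : BZ} {g : ℕ} (h : z.val.natAbs < 2 ^ g) : esz z ≤ 3 * g + 1 := by
  rw [esz_bz]
  have h1 : z.val.toNat.size ≤ g := Nat.size_le.mpr (by omega)
  have h2 : (-z.val).toNat.size ≤ g := Nat.size_le.mpr (by omega)
  omega

theorem sum_abs_cof (s : ℕ) (u : List (BZ × ℕ)) :
    ∑ b : Fin (s + 1), |cof u b| ≤ ((2 ^ esz u : ℕ) : ℤ) := by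
  induction u with
  | nil => simp [cof]
  | cons p u ih =>
    have h1 : ∑ b : Fin (s + 1), |cof (p :: u) b| ≤
        ∑ b : Fin (s + 1), (if p.2 = (b : ℕ) then |p.1.val| else 0) +
          ∑ b : Fin (s + 1), |cof u b| := by
      rw [← Finset.sum_add_distrib]
      refine Finset.sum_le_sum fun b _ => ?_
      rw [cof_cons]
      refine (abs_add_le _ _).trans ?_
      split_ifs <;> simp
    have h2 : ∑ b : Fin (s + 1), (if p.2 = (b : ℕ) then |p.1.val| else 0) ≤ |p.1.val| := by
      by_cases hp : p.2 ≤ s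
      · rw [Finset.sum_eq_single (⟨p.2, by omega⟩ : Fin (s + 1))]
        · simp
        · intro b _ hb
          have : p.2 ≠ (b : ℕ) := by
            intro h2
            exact hb (Fin.ext h2.symm)
          simp [this]
        · intro h2
          exact absurd (Finset.mem_univ _) h2
      · rw [Finset.sum_eq_zero]
        · exact abs_nonneg _
        · intro b _
          have : p.2 ≠ (b : ℕ) := by
            have := b.2
            omega
          simp [this]
    have h3 : |p.1.val| ≤ ((2 ^ esz p.1 : ℕ) : ℤ) := by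
      have := natAbs_lt p.1
      rw [Int.abs_eq_natAbs]
      exact_mod_cast this.le
    have h4 : esz (p :: u) = 2 * (2 * esz p.1 + 1 + p.2) + 1 + esz u := by
      rw [esz_cons]
      have : esz p = 2 * esz p.1 + 1 + esz p.2 := esz_pair p.1 p.2
      rw [this, esz_nat]
    have h5 : 2 ^ esz p.1 + 2 ^ esz u ≤ 2 ^ esz (p :: u) :=
      (two_pow_add _ _).trans (Nat.pow_le_pow_right (by norm_num) (by omega))
    have h6 : ((2 ^ esz p.1 : ℕ) : ℤ) + ((2 ^ esz u : ℕ) : ℤ) ≤ ((2 ^ esz (p :: u) : ℕ) : ℤ) := by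
      exact_mod_cast h5
    linarith

theorem bas_le (s m : ℕ) : bas (2 ^ s) m ≤ 2 ^ ((s + 1) * (m + 1) + 2) := by
  have h1 : 2 ^ s + 1 ≤ 2 ^ (s + 1) := by
    have : 1 ≤ 2 ^ s := Nat.one_le_two_pow
    rw [pow_succ]
    omega
  unfold bas
  have h2 : (2 ^ s + 1) ^ m ≤ 2 ^ ((s + 1) * m) := by
    rw [pow_mul]
    exact Nat.pow_le_pow_left h1 m
  have h3 : (2 ^ s + 1) ^ m + 2 ≤ 2 ^ ((s + 1) * m + 2) := by
    have : 1 ≤ 2 ^ ((s + 1) * m) := Nat.one_le_two_pow
    rw [pow_add]
    omega
  calc (2 ^ s + 1) * ((2 ^ s + 1) ^ m + 2) ≤ 2 ^ (s + 1) * 2 ^ ((s + 1) * m + 2) :=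
        Nat.mul_le_mul h1 h3
    _ = 2 ^ ((s + 1) * (m + 1) + 2) := by
        rw [← pow_add]
        ring_nf

/-- the bound for the size of the advice -/
def advB (s : ℕ) : ℕ := (s + 1) * (6 * ((s + 1) * ((s + 1) * (s + 2) + 2)) + 3)

theorem advice (s : ℕ) : ∃ w : List BZ, esz w ≤ advB s ∧
    ∀ u : List (BZ × ℕ), esz u ≤ s → (tst w u ↔ 0 ≤ valL u) := by
  obtain ⟨w, hw1, hw2⟩ := rounding (2 ^ s) (fun b : Fin (s + 1) => (Real.sqrt ((b : ℕ) : ℝ))⁻¹)
  have hlen : (List.ofFn fun b => BZ.mk (w b)).length = s + 1 := List.length_ofFn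
  refine ⟨List.ofFn fun b => BZ.mk (w b), ?_, fun u hu => ?_⟩
  · refine (esz_list_le (B := 3 * ((s + 1) * ((s + 1) * (s + 2) + 2)) + 1) ?_).trans ?_
    · intro x hx
      rw [List.mem_ofFn] at hx
      obtain ⟨b, rfl⟩ := hx
      refine esz_bz_le ?_
      have h1 := hw1 b
      rw [Fintype.card_fin] at h1
      refine lt_of_lt_of_le h1 ?_
      refine (Nat.pow_le_pow_left (bas_le s (s + 1)) (s + 1)).trans ?_
      rw [← pow_mul]
      refine Nat.pow_le_pow_right (by norm_num) ?_
      exact le_of_eq (by ring)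
    · rw [hlen]
      unfold advB
      exact le_of_eq (by ring)
  · have hb : ∀ p ∈ u, p.2 ≤ s := by
      intro p hp
      have h1 := esz_mem_le hp
      have h2 : esz p = 2 * esz p.1 + 1 + esz p.2 := esz_pair p.1 p.2
      rw [esz_nat] at h2
      omega
    have hN : ∑ b : Fin (s + 1), |cof u b| ≤ ((2 ^ s : ℕ) : ℤ) := by
      refine (sum_abs_cof s u).trans ?_
      exact_mod_cast Nat.pow_le_pow_right (by norm_num) hu
    have h1 := hw2 (fun b => cof u b) hN
    have h2 : ∑ b : Fin (s + 1), (cof u b : ℝ) * (Real.sqrt ((b : ℕ) : ℝ))⁻¹ = valL u :=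
      sum_cof s (fun b => (Real.sqrt (b : ℝ))⁻¹) u hb
    have h3 : ∑ b : Fin (s + 1), cof u b * w b =
        (u.map fun p => p.1.val * (if h : p.2 < s + 1 then w ⟨p.2, h⟩ else 0)).sum := by
      have h4 := sum_cof (R := ℤ) s (fun b => if h : b < s + 1 then w ⟨b, h⟩ else 0) u hb
      simp only [Int.cast_id] at h4
      rw [← h4]
      refine Finset.sum_congr rfl fun b _ => ?_
      rw [dif_pos b.2]
    have h5 : (zSum (u.map fun p => zMul p.1
        ((List.ofFn fun b => BZ.mk (w b)).getD p.2 (BZ.mk 0)))).val =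
        (u.map fun p => p.1.val * (if h : p.2 < s + 1 then w ⟨p.2, h⟩ else 0)).sum := by
      unfold zSum zMul
      simp only [List.map_map]
      refine congrArg List.sum (List.map_congr_left fun p hp => ?_)
      have h6 : p.2 < s + 1 := by
        have := hb p hp
        omega
      simp only [Function.comp, h6, dite_true]
      rw [List.getD_eq_getElem _ _ (by rw [hlen]; exact h6), List.getElem_ofFn]
    unfold tst zNonneg
    rw [h5, ← h3, ← h2]
    exact h1.symm

/-- the bound as a polynomial -/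
noncomputable def advP : Polynomial ℕ :=
  (Polynomial.X + 1) * (6 * ((Polynomial.X + 1) * ((Polynomial.X + 1) * (Polynomial.X + 2) + 2)) + 3)

theorem advP_eval (s : ℕ) : advP.eval s = advB s := by
  unfold advP advB
  simp

end Pool.Agent.Helper9.SR
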