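import Pool.Agent.Helper9.SR.Sqrt

/-!
# The element of an instance
-/

set_option autoImplicit false

namespace Pool.Agent.Helper9.SR

open N68a2faeb Pool.Agent.Helper36.PT Pool.Agent.Helper73.ETSP

variable {α β γ : Type} [Enc α] [Enc β] [Enc γ]

/-- The signed square root of an integer: `sqrt z` for `z ≥ 0` and `-sqrt (-z)` for `z < 0`. -/
noncomputable def sroot (z : ℤ) : ℝ := (z.sign : ℝ) * Real.sqrt (z.natAbs : ℝ)

/-- the multiplier for the square class -/
noncomputable def fb (B : ℕ) (z : BZ) : ℕ :=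
  mu (B + 1) (fun b => 1 ≤ b ∧ bIsSq (bMul (zAbs z) (bOf b)))

/-- the integer belongs to a small square class -/
def sml (B : ℕ) (z : BZ) : Prop := fb B z < B + 1

open Classical in
/-- minus the sign of `z`, times `r` -/
noncomputable def zSg (z : BZ) (r : BN) : BZ := if zNonneg z then zNeg (zOf r) else zOf r

/-- the term of an integer in a small square class -/
noncomputable def trm (B : ℕ) (z : BZ) : BZ × ℕ :=
  (zSg z (bSqrt (bMul (zAbs z) (bOf (fb B z)))), fb B z)

/-- the integers in the other square classes -/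
noncomputable def lrg (B : ℕ) (zs : List BZ) : List BZ := zs.filter fun z => !(dec (sml B z))

/-- the list of the terms in small square classes -/
noncomputable def lowL (B : ℕ) (zs : List BZ) (k : BZ) : List (BZ × ℕ) :=
  (k, 1) :: (zs.filter fun z => dec (sml B z)).map (trm B)

/-- the radicands -/
noncomputable def radA (B : ℕ) (zs : List BZ) : List BN := (lrg B zs).map zAbs

/-- the element -/
noncomputable def elF (B : ℕ) (zs : List BZ) (k : BZ) : ∀ T, El T
  | 0 => lowL B zs k
  | T + 1 => (elF B zs k T, cstE T (zSg ((lrg B zs).getD T (BZ.mk 0)) (BN.mk 1)))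

theorem fb_spec {B : ℕ} {z : BZ} (h : sml B z) : 1 ≤ fb B z ∧
    ∃ r : ℕ, r * r = z.val.natAbs * fb B z := by
  have h0 : ∃ i, i < B + 1 ∧ (1 ≤ i ∧ bIsSq (bMul (zAbs z) (bOf i))) := by
    by_contra hcon
    have h1 : fb B z = B + 1 := by
      unfold fb mu
      rw [dif_neg hcon]
    unfold sml at h
    omega
  obtain ⟨h1, h2, h3⟩ := mu_spec h0
  refine ⟨h2, ?_⟩
  rw [bIsSq_iff] at h3
  exact h3

theorem sml_iff (B : ℕ) (hB : 1 ≤ B) (z : BZ) : sml B z ↔ SmallSq B z.val.natAbs := by
  rw [smallSq_iff B _ hB]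
  constructor
  · intro h
    obtain ⟨h1, h2⟩ := fb_spec h
    exact ⟨fb B z, h, h1, h2⟩
  · rintro ⟨b, h1, h2, h3⟩
    have h0 : ∃ i, i < B + 1 ∧ (1 ≤ i ∧ bIsSq (bMul (zAbs z) (bOf i))) :=
      ⟨b, h1, h2, (bIsSq_iff _).mpr h3⟩
    exact (mu_spec h0).1

theorem zSg_val (z : BZ) (r : BN) (hz : z.val = 0 → r.val = 0) :
    ((zSg z r).val : ℝ) = -((z.val.sign : ℝ) * (r.val : ℝ)) := by
  unfold zSg zNonneg zNeg zOf
  rcases lt_trichotomy z.val 0 with h | h | h
  · rw [if_neg (not_le.mpr h), Int.sign_eq_neg_one_of_neg h]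
    push_cast
    ring
  · rw [if_pos (le_of_eq h.symm), hz h]
    simp
  · rw [if_pos h.le, Int.sign_eq_one_of_pos h]
    push_cast
    ring

theorem trm_val {B : ℕ} {z : BZ} (h : sml B z) :
    ((trm B z).1.val : ℝ) * (Real.sqrt ((trm B z).2 : ℝ))⁻¹ = -sroot z.val := by
  obtain ⟨h1, r, hr⟩ := fb_spec h
  have h2 : bSqrt (bMul (zAbs z) (bOf (fb B z))) = BN.mk r := by
    unfold bSqrt bMul zAbs bOf
    rw [← hr, Nat.sqrt_eq]
  unfold trm
  rw [h2]
  dsimp only
  rw [zSg_val z (BN.mk r) (fun h0 => by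
    rw [h0] at hr
    simp only [Int.natAbs_zero, zero_mul] at hr
    exact mul_self_eq_zero.mp hr)]
  unfold sroot
  have hb : (0 : ℝ) < Real.sqrt (fb B z : ℝ) := Real.sqrt_pos.mpr (by exact_mod_cast h1)
  have h3 : (r : ℝ) = Real.sqrt (z.val.natAbs : ℝ) * Real.sqrt (fb B z : ℝ) := by
    rw [← Real.sqrt_mul (Nat.cast_nonneg _), ← Nat.cast_mul, ← hr, Nat.cast_mul,
      Real.sqrt_mul_self (Nat.cast_nonneg _)]
  dsimp only
  rw [h3]
  field_simp

theorem lrg_val (z : BZ) : ((zSg z (BN.mk 1)).val : ℝ) * Real.sqrt (((zOf (zAbs z)).val : ℤ) : ℝ) =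
    -sroot z.val := by
  have e : (((zOf (zAbs z)).val : ℤ) : ℝ) = (z.val.natAbs : ℝ) := by
    unfold zOf zAbs
    simp
  rw [e]
  unfold sroot
  rcases eq_or_ne z.val 0 with h | h
  · rw [h]
    simp
  · rw [zSg_val z (BN.mk 1) (fun h0 => absurd h0 h)]
    push_cast
    ring

theorem sum_split {M : Type} (g : M → ℝ) (p : M → Bool) (l : List M) : (l.map g).sum =
    ((l.filter p).map g).sum + ((l.filter fun x => !(p x)).map g).sum := by
  induction l with
  | nil => simp
  | cons x l ih =>
    rw [List.map_cons, List.sum_cons, ih]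
    cases h : p x
    · simp only [List.filter_cons, h, Bool.not_false, if_true, if_false, List.map_cons,
        List.sum_cons, Bool.false_eq_true]
      ring
    · simp only [List.filter_cons, h, Bool.not_true, if_true, if_false, List.map_cons,
        List.sum_cons, Bool.false_eq_true]
      ring

theorem sum_range_getD (g : BZ → ℝ) (hg : g (BZ.mk 0) = 0) (l : List BZ) (T : ℕ)
    (h : l.length ≤ T) : ∑ j ∈ Finset.range T, g (l.getD j (BZ.mk 0)) = (l.map g).sum := by
  induction l generalizing T with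
  | nil => simp [hg]
  | cons x l ih =>
    rw [List.length_cons] at h
    obtain ⟨T, rfl⟩ : ∃ T', T = T' + 1 := ⟨T - 1, by omega⟩
    rw [Finset.sum_range_succ', List.map_cons, List.sum_cons]
    simp only [List.getD_cons_succ, List.getD_cons_zero]
    rw [ih T (by omega)]
    ring

theorem valE_elF_sum (B : ℕ) (zs : List BZ) (k : BZ) (T : ℕ) : valE T (radA B zs) (elF B zs k T) =
    valL (lowL B zs k) - ∑ j ∈ Finset.range T, sroot ((lrg B zs).getD j (BZ.mk 0)).val := by
  induction T with
  | zero =>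
    rw [Finset.sum_range_zero, sub_zero]
    rfl
  | succ T ih =>
    change valE T (radA B zs) (elF B zs k T) + valE T (radA B zs)
      (cstE T (zSg ((lrg B zs).getD T (BZ.mk 0)) (BN.mk 1))) *
        Real.sqrt (((rad (radA B zs) T).val : ℤ) : ℝ) = _
    rw [ih, valE_cst, Finset.sum_range_succ]
    have h1 : rad (radA B zs) T = zOf (zAbs ((lrg B zs).getD T (BZ.mk 0))) := by
      unfold rad radA
      have h2 : (BN.mk 0) = zAbs (BZ.mk 0) := rfl
      rw [h2, List.getD_map]
    rw [h1, lrg_val]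
    ring

theorem sroot_zero : sroot 0 = 0 := by
  unfold sroot
  simp

theorem valE_elF (B : ℕ) (zs : List BZ) (k : BZ) (T : ℕ) (h : (lrg B zs).length ≤ T) :
    valE T (radA B zs) (elF B zs k T) = (k.val : ℝ) - ((zs.map BZ.val).map sroot).sum := by
  rw [valE_elF_sum, sum_range_getD (fun z => sroot z.val) sroot_zero (lrg B zs) T h]
  have h1 : valL (lowL B zs k) = (k.val : ℝ) -
      ((zs.filter fun z => dec (sml B z)).map fun z => sroot z.val).sum := by
    have h2 : valL (lowL B zs k) = (k.val : ℝ) * (Real.sqrt ((1 : ℕ) : ℝ))⁻¹ +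
      valL ((zs.filter fun z => dec (sml B z)).map (trm B)) := rfl
    have h3 : ∀ l : List BZ, (∀ z ∈ l, sml B z) →
        valL (l.map (trm B)) = -((l.map fun z => sroot z.val).sum) := by
      intro l hl
      induction l with
      | nil => simp [valL]
      | cons z l ih =>
        have h4 : valL ((z :: l).map (trm B)) = ((trm B z).1.val : ℝ) *
          (Real.sqrt ((trm B z).2 : ℝ))⁻¹ + valL (l.map (trm B)) := rfl
        rw [h4, ih (fun z hz => hl z (List.mem_cons_of_mem _ hz)),
          trm_val (hl z (List.mem_cons_self ..)), List.map_cons, List.sum_cons]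
        ring
    rw [h2, h3 _ (fun z hz => by
      rw [List.mem_filter] at hz
      exact (dec_eq_true _).mp hz.2)]
    simp
    ring
  have h5 := sum_split (fun z : BZ => sroot z.val) (fun z => dec (sml B z)) zs
  rw [h1, List.map_map]
  change _ = (k.val : ℝ) - (zs.map fun z => sroot z.val).sum
  rw [h5]
  unfold lrg
  ring

/-! ### polynomial time -/

theorem PolyTime.fb {B : α → ℕ} {z : α → BZ} (hB : PolyTime B) (hz : PolyTime z) :
    PolyTime (fun a => fb (B a) (z a)) := by
  have := arith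
  unfold Pool.Agent.Helper9.SR.fb
  fun_prop

theorem PolyTime.sml {B : α → ℕ} {z : α → BZ} (hB : PolyTime B) (hz : PolyTime z) :
    PolyTime (fun a => sml (B a) (z a)) := by
  have h := PolyTime.fb hB hz
  exact PolyTime.pLt h (by fun_prop)

theorem PolyTime.zSg {z : α → BZ} {r : α → BN} (hz : PolyTime z) (hr : PolyTime r) :
    PolyTime (fun a => zSg (z a) (r a)) := by
  have := arith
  unfold Pool.Agent.Helper9.SR.zSg
  fun_prop

theorem PolyTime.lrg {B : α → ℕ} {zs : α → List BZ} (hB : PolyTime B) (hzs : PolyTime zs) :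
    PolyTime (fun a => lrg (B a) (zs a)) := by
  unfold Pool.Agent.Helper9.SR.lrg
  have h : PolyTime (fun p : α × BZ => Pool.Agent.Helper9.SR.sml (B p.1) p.2) :=
    PolyTime.sml (hB.comp PolyTime.fst) PolyTime.snd
  exact PolyTime.filter hzs (PolyTime.not' (PolyTime.dec' h))

theorem PolyTime.radA {B : α → ℕ} {zs : α → List BZ} (hB : PolyTime B) (hzs : PolyTime zs) :
    PolyTime (fun a => radA (B a) (zs a)) := by
  have := arith
  have h := PolyTime.lrg hB hzs
  exact PolyTime.map h (by fun_prop)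

theorem PolyTime.lowL {B : α → ℕ} {zs : α → List BZ} {k : α → BZ} (hB : PolyTime B)
    (hzs : PolyTime zs) (hk : PolyTime k) : PolyTime (fun a => lowL (B a) (zs a) (k a)) := by
  have := arith
  have h : PolyTime (fun p : α × BZ => Pool.Agent.Helper9.SR.sml (B p.1) p.2) :=
    PolyTime.sml (hB.comp PolyTime.fst) PolyTime.snd
  have h1 : PolyTime (fun p : α × BZ => Pool.Agent.Helper9.SR.fb (B p.1) p.2) :=
    PolyTime.fb (hB.comp PolyTime.fst) PolyTime.snd
  have h2 : PolyTime (fun p : α × BZ => trm (B p.1) p.2) := by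
    unfold trm
    exact PolyTime.pair (PolyTime.zSg PolyTime.snd (by fun_prop)) h1
  have h3 : PolyTime (fun a => (zs a).filter fun z => dec (Pool.Agent.Helper9.SR.sml (B a) z)) :=
    PolyTime.filter hzs (PolyTime.dec' h)
  have h4 : PolyTime (fun a => ((zs a).filter fun z =>
      dec (Pool.Agent.Helper9.SR.sml (B a) z)).map (trm (B a))) := PolyTime.map h3 h2
  exact PolyTime.cons' (PolyTime.pair hk (PolyTime.const 1)) h4

theorem PolyTime.elF {B : α → ℕ} {zs : α → List BZ} {k : α → BZ} (hB : PolyTime B)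
    (hzs : PolyTime zs) (hk : PolyTime k) (T : ℕ) :
    PolyTime (fun a => elF (B a) (zs a) (k a) T) := by
  induction T with
  | zero => exact PolyTime.lowL hB hzs hk
  | succ T ih =>
    have h := PolyTime.lrg hB hzs
    refine PolyTime.toElS ih (PolyTime.cstE T (PolyTime.zSg ?_ (PolyTime.const _)))
    exact PolyTime.getD h (PolyTime.const _) _

end Pool.Agent.Helper9.SR
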