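import Pool.Agent.Helper13.SR.ExistsH
import Pool.Agent.Helper32.SR.HenselSplit
import Pool.Agent.Helper63.SR.FiniteQuot
import Pool.Agent.Helper45.SR.SpanEval
import Pool.Agent.Helper48.SR.IdealIdentity

/-!
# SR-D8' : the generic certificate at the point `X = 0`
-/

set_option autoImplicit false
open Polynomial Pool.Agent.Helper54.PW

namespace Pool.Agent.Helper54.SR

namespace H9

variable {k : Type} [Field k]

/-- the evaluation of a polynomial at the variable of the power series -/
theorem eval_X_map : ((evalRingHom (PowerSeries.X : PowerSeries k)).comp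
      (mapRingHom (algebraMap k (PowerSeries k)))) =
      Polynomial.coeToPowerSeries.ringHom (R := k) := by
  apply Polynomial.ringHom_ext
  · intro a
    simp
  · simp

/-- the map at `X = t` -/
theorem fS_map_X (f : k[X][X]) :
    (fS (algebraMap k (PowerSeries k)) f).map (evalRingHom PowerSeries.X) =
      f.map (Polynomial.coeToPowerSeries.ringHom (R := k)) := by
  unfold fS
  rw [Polynomial.map_map, eval_X_map]

/-- the map at `X = 0` -/
theorem fS_map_zero (f : k[X][X]) :
    (fS (algebraMap k (PowerSeries k)) f).map (evalRingHom 0) =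
      (f.map (evalRingHom 0)).map (algebraMap k (PowerSeries k)) := by
  unfold fS
  rw [Polynomial.map_map, Polynomial.map_map]
  congr 1
  apply Polynomial.ringHom_ext
  · intro a
    simp
  · simp

theorem isUnit_of_cc (z : PowerSeries k) (h : PowerSeries.constantCoeff z ≠ 0) : IsUnit z :=
  PowerSeries.isUnit_iff_constantCoeff.2 (isUnit_iff_ne_zero.2 h)

end H9

open H9

theorem cert_generic0 {k : Type} [Field k] {ℓ : ℕ} (hℓ0 : 0 < ℓ) (hℓ : (ℓ : k) ≠ 0) {n : ℕ}
    (f : k[X][X]) (hf : f.Monic) (hn : f.natDegree = n) (η : Fin n → k)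
    (hη : Function.Injective η)
    (hf0 : f.map (Polynomial.evalRingHom 0) = ∏ i, (X - C (η i))) (i₀ : Fin n) :
    ∃ y : PowerSeries k, evalEval PowerSeries.X y (fS (algebraMap k (PowerSeries k)) f) = 0 ∧
      Cert ℓ (algebraMap k (PowerSeries k)) f 0 (η i₀) PowerSeries.X y := by
  classical
  obtain ⟨y, hy0, hfy⟩ := hensel_split f hf η hη hf0
  have hinj : Function.Injective fun i => PowerSeries.constantCoeff (y i) := by
    intro i j hij
    apply hη
    rw [← hy0 i, ← hy0 j]
    exact hij
  have hn0 : 0 < n := Fin.pos i₀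
  set φ := algebraMap k (PowerSeries k) with hφ
  have hφC : ∀ a : k, φ a = PowerSeries.C a := fun a => rfl
  have hX : (fS φ f).map (evalRingHom PowerSeries.X) = ∏ i, (X - C (y i)) := by
    rw [fS_map_X, hfy]
  have h0 : (fS φ f).map (evalRingHom 0) = ∏ i, (X - C (φ (η i))) := by
    rw [fS_map_zero, hf0, Polynomial.map_prod]
    apply Finset.prod_congr rfl
    intro i _
    simp [hφ]
  have hmon : (fS φ f).Monic := hf.map _
  have hdeg : (fS φ f).natDegree = n := by
    unfold fS
    rw [hf.natDegree_map, hn]
  -- the weights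
  set d : ℕ := (Finset.range n).sup (fun j => (f.coeff j).natDegree) with hd
  have hdj : ∀ j < n, (f.coeff j).natDegree ≤ d := fun j hj =>
    Finset.le_sup (f := fun j => (f.coeff j).natDegree) (Finset.mem_range.2 hj)
  have hd1 : ∀ j < n, (f.coeff j).natDegree + d * j ≤ d * n := by
    intro j hj
    have h1 := hdj j hj
    have h2 : d * (j + 1) ≤ d * n := Nat.mul_le_mul_left d hj
    rw [Nat.mul_add, Nat.mul_one] at h2
    omega
  have hd2 : ∀ j ≤ n, (f.coeff j).natDegree + d * j ≤ d * n := by
    intro j hj
    rcases Nat.lt_or_eq_of_le hj with h | h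
    · exact hd1 j h
    · rw [h, ← hn, hf.coeff_natDegree, natDegree_one, zero_add]
  obtain ⟨M, H₁, H₂, H₁₂, hM, hdeg₁, hdeg₂, hid, hπ₁, hπ₂, hW, ⟨hv₁, hv₂⟩, hv⟩ :=
    exists_H hℓ0 hℓ f hf hn y hinj hfy i₀ d hd2
  rw [hy0] at hv₁ hv₂
  -- finiteness
  have hfin := finite_quot (PowerSeries.constantCoeff (R := k))
    PowerSeries.constantCoeff_surj (fS φ f) hmon hdeg (d := d) (M := M) (fun j hj => by
      refine le_trans ?_ (hd1 j hj)
      gcongr
      unfold fS
      rw [coeff_map]
      exact natDegree_map_le) H₂ hdeg₂ hW hπ₂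
  -- the points
  set a : Fin n → PowerSeries k := fun i => if i = i₀ then 0 else PowerSeries.X with ha
  set b : Fin n → PowerSeries k := fun i => if i = i₀ then PowerSeries.C (η i₀) else y i with hb
  have hb0 : ∀ i, PowerSeries.constantCoeff (b i) = η i := by
    intro i
    by_cases h : i = i₀
    · rw [hb, h]
      simp
    · rw [hb]
      simp only [if_neg h]
      exact hy0 i
  have hroot : ∀ i, evalEval (a i) (b i) (fS φ f) = 0 := by
    intro i
    rw [← map_evalRingHom_eval]
    by_cases h : i = i₀
    · simp only [ha, hb, if_pos h]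
      rw [h0, eval_prod]
      apply Finset.prod_eq_zero (Finset.mem_univ i₀)
      rw [hφC]
      simp
    · simp only [ha, hb, if_neg h]
      rw [hX, eval_prod]
      apply Finset.prod_eq_zero (Finset.mem_univ i)
      simp
  have e1 : ∀ i, evalEval (a i) (b i) H₁ = 0 := by
    intro i
    by_cases h : i = i₀
    · simp only [ha, hb, if_pos h]
      exact hv₁
    · simp only [ha, hb, if_neg h]
      exact (hv i h).1
  have e2 : ∀ i, evalEval (a i) (b i) H₂ = 0 := by
    intro i
    by_cases h : i = i₀
    · simp only [ha, hb, if_pos h]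
      exact hv₂
    · simp only [ha, hb, if_neg h]
      exact (hv i h).2
  have hbu : ∀ i j, i ≠ j → IsUnit (b i - b j) := by
    intro i j hij
    apply isUnit_of_cc
    rw [map_sub, hb0, hb0, sub_ne_zero]
    exact fun h => hij (hη h)
  have hspan := mem_span_of_eval (PowerSeries.constantCoeff (R := k))
    PowerSeries.constantCoeff_surj (fS φ f) hmon hdeg H₁ H₂ hfin hM hπ₁ hπ₂ a b hroot e1 e2 hbu
  have hJ : ∀ B : (PowerSeries k)[X][X], AdjoinRoot.mk (fS φ f) B ∈
      Ideal.span {AdjoinRoot.mk (fS φ f) H₁, AdjoinRoot.mk (fS φ f) H₂} ↔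
      (evalEval 0 (PowerSeries.C (η i₀)) B = 0 ∧
        ∀ i, i ≠ i₀ → evalEval PowerSeries.X (y i) B = 0) := by
    intro B
    constructor
    · intro hB
      have key : ∀ i, evalEval (a i) (b i) B = 0 := by
        intro i
        set e : AdjoinRoot (fS φ f) →+* PowerSeries k :=
          AdjoinRoot.lift (evalRingHom (a i)) (b i) (by
            rw [eval₂_evalRingHom]
            exact hroot i) with he
        have hmk : ∀ B, e (AdjoinRoot.mk (fS φ f) B) = evalEval (a i) (b i) B := by
          intro B
          rw [he, AdjoinRoot.lift_mk, eval₂_evalRingHom]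
        have hle : Ideal.span {AdjoinRoot.mk (fS φ f) H₁, AdjoinRoot.mk (fS φ f) H₂} ≤
            RingHom.ker e := by
          rw [Ideal.span_le]
          intro z hz
          rcases hz with rfl | hz
          · show e _ = 0
            rw [hmk, e1]
          · rw [Set.mem_singleton_iff] at hz
            rw [hz]
            show e _ = 0
            rw [hmk, e2]
        rw [← hmk]
        exact hle hB
      refine ⟨?_, fun i hi => ?_⟩
      · have := key i₀
        simpa only [ha, hb, if_pos rfl, if_true] using this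
      · have := key i
        simpa only [ha, hb, if_neg hi] using this
    · rintro ⟨hB0, hB⟩
      apply hspan
      intro i
      by_cases h : i = i₀
      · simp only [ha, hb, if_pos h]
        exact hB0
      · simp only [ha, hb, if_neg h]
        exact hB i h
  have hyu : ∀ i j, i ≠ j → IsUnit (y i - y j) := by
    intro i j hij
    apply isUnit_of_cc
    rw [map_sub, hy0, hy0, sub_ne_zero]
    exact fun h => hij (hη h)
  have hηu : ∀ i, i ≠ i₀ → IsUnit (PowerSeries.C (η i₀) - y i) := by
    intro i hi
    apply isUnit_of_cc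
    rw [map_sub, hy0, PowerSeries.constantCoeff_C, sub_ne_zero]
    exact fun h => hi (hη h.symm)
  have hroot0 : evalEval 0 (PowerSeries.C (η i₀)) (fS φ f) = 0 := by
    have := hroot i₀
    simpa only [ha, hb, if_pos rfl, if_true] using this
  have hideal := ideal_identity (fS φ f) hmon PowerSeries.X (PowerSeries.C (η i₀)) y i₀ hX hroot0
    hyu hηu _ hJ
  refine ⟨y i₀, ?_, H₁, H₂, H₁₂, ?_, ?_, hid, ?_⟩
  · rw [← map_evalRingHom_eval, hX, eval_prod]
    apply Finset.prod_eq_zero (Finset.mem_univ i₀)
    simp
  · rw [hn]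
    have hne : H₁ ≠ 0 := by
      intro h
      rw [h, Polynomial.map_zero] at hπ₁
      exact (C_ne_zero.2 X_ne_zero) hπ₁.symm
    exact (natDegree_lt_iff_degree_lt hne).2 hdeg₁
  · have hc : PowerSeries.constantCoeff ((H₁.coeff 0).coeff 1) = 1 := by
      have := congrArg (fun p => (p.coeff 0).coeff 1) hπ₁
      simpa using this
    refine Ideal.eq_top_of_isUnit_mem _ (Ideal.subset_span ⟨(0, 1), rfl⟩) (isUnit_of_cc _ ?_)
    rw [hc]
    exact one_ne_zero
  · rw [hideal, map_zero φ, ← hφC]

end Pool.Agent.Helper54.SR
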