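import Pool.Agent.Helper73.ETSP.Inst
import Pool.Agent.Helper68.ETSP.Closure

/-!
# The classes P/poly and NP/poly
-/

set_option autoImplicit false

namespace Pool.Agent.Helper9.SR

open N68a2faeb Pool.Agent.Helper36.PT Pool.Agent.Helper73.ETSP

/-- The class P/poly: decision in polynomial time with an advice word which depends on the length
of the input only and has polynomial length. -/
def PPoly : DecisionComplexityClass :=
  { L | ∃ (p : Polynomial ℕ) (adv : ℕ → List Bool) (R : List Bool × List Bool → Bool),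
      IsPolyTime R ∧ (∀ n, (adv n).length ≤ p.eval n) ∧ ∀ x, L x = R (x, adv x.length) }

/-- The class NP/poly: polynomial time verifiers which have access to an advice word which depends
on the length of the input only and has polynomial length. -/
def NPPoly : DecisionComplexityClass :=
  { L | ∃ (p : Polynomial ℕ) (adv : ℕ → List Bool)
      (R : List Bool × List Bool × List Bool → Bool),
      IsPolyTime R ∧ (∀ n, (adv n).length ≤ p.eval n) ∧
      ∀ x, L x ↔ ∃ w : List Bool, w.length ≤ p.eval x.length ∧ R (x, adv x.length, w) }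

variable {α β γ : Type} [Enc α] [Enc β] [Enc γ]

theorem encode_triple_eq : (N487b59b3.toEncoding (α := List Bool × List Bool × List Bool)).encode =
    (enc : List Bool × List Bool × List Bool → List Bool) := by
  funext p
  change N487b59b3.delimit (N487b59b3.bitEncode p.1) ++
    (N487b59b3.delimit (N487b59b3.bitEncode p.2.1) ++ N487b59b3.bitEncode p.2.2) =
    fr (enc p.1) ++ (fr (enc p.2.1) ++ enc p.2.2)
  rw [delimit_eq_fr, delimit_eq_fr, bitEncode_list, bitEncode_list, bitEncode_list]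

theorem isPolyTime_iff_TM3 (R : List Bool × List Bool × List Bool → Bool) : IsPolyTime R ↔
    Nonempty (Turing.TM2ComputableInPolyTime
      (enc : List Bool × List Bool × List Bool → List Bool) (enc : Bool → List Bool) R) := by
  unfold IsPolyTime IsPolyTimeWithEncoding
  rw [encode_triple_eq, encode_bool_eq]

/-- a predicate decided in polynomial time with advice -/
theorem ppoly_of [Dec α] [Dec γ] (S : Set α) (V : α × γ → Prop) (hV : PolyTime V)
    (adv : ℕ → γ) (p : Polynomial ℕ) (h1 : ∀ n, esz (adv n) ≤ p.eval n)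
    (h2 : ∀ a, a ∈ S ↔ V (a, adv (esz a))) : langE S ∈ PPoly := by
  classical
  obtain ⟨da, hda, eda⟩ := Dec.out (α := α)
  obtain ⟨dc, hdc, edc⟩ := Dec.out (α := γ)
  obtain ⟨A, hA⟩ : ∃ A : List Bool × List Bool → α, A = fun q => da ⟨q.1⟩ := ⟨_, rfl⟩
  obtain ⟨C, hC⟩ : ∃ C : List Bool × List Bool → γ, C = fun q => dc ⟨q.2⟩ := ⟨_, rfl⟩
  have pA : PolyTime A := by rw [hA]; exact hda.comp (by fun_prop)
  have pC : PolyTime C := by rw [hC]; exact hdc.comp (by fun_prop)
  have pQ : PolyTime (fun q => V (A q, C q)) := hV.comp (pA.pair pC)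
  have pX : PolyTime (fun q => (Word.mk (enc (A q))).w) :=
    PolyTime.wordToList' (PolyTime.toWord pA)
  obtain ⟨R, hR⟩ : ∃ R : List Bool × List Bool → Bool, R = fun q =>
      Pool.Agent.Helper36.PT.dec ((Word.mk (enc (A q))).w = q.1 ∧ V (A q, C q)) := ⟨_, rfl⟩
  have pR : PolyTime R := by
    rw [hR]
    exact PolyTime.dec' (PolyTime.pAnd (PolyTime.pEqList pX PolyTime.fst) pQ)
  refine ⟨p, fun n => enc (adv n), R, (isPolyTime_iff_TM R).2 pR.toTM, h1, fun x => ?_⟩
  rw [Bool.eq_iff_iff, hR]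
  refine Iff.trans ?_ (dec_eq_true _).symm
  have eC : C (x, enc (adv x.length)) = adv x.length := by rw [hC]; exact edc _
  rw [eC]
  unfold langE
  rw [decide_eq_true_eq]
  constructor
  · rintro ⟨a, ha, rfl⟩
    have eA : A (enc a, enc (adv (enc a).length)) = a := by rw [hA]; exact eda a
    rw [eA]
    exact ⟨rfl, (h2 a).1 ha⟩
  · rintro ⟨k1, k2⟩
    refine ⟨A (x, enc (adv x.length)), (h2 _).2 ?_, k1⟩
    have e1 : esz (A (x, enc (adv x.length))) = x.length := congrArg List.length k1
    rw [e1]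
    exact k2

/-- a predicate with certificates and advice -/
theorem nppoly_of [Dec α] [Dec β] [Dec γ] (S : Set α) (V : α × γ × β → Prop) (hV : PolyTime V)
    (adv : ℕ → γ) (p : Polynomial ℕ) (h1 : ∀ n, esz (adv n) ≤ p.eval n)
    (h2 : ∀ a ∈ S, ∃ b, esz b ≤ p.eval (esz a) ∧ V (a, adv (esz a), b))
    (h3 : ∀ a b, V (a, adv (esz a), b) → a ∈ S) : langE S ∈ NPPoly := by
  classical
  obtain ⟨da, hda, eda⟩ := Dec.out (α := α)
  obtain ⟨dc, hdc, edc⟩ := Dec.out (α := γ)
  obtain ⟨db, hdb, edb⟩ := Dec.out (α := β)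
  obtain ⟨A, hA⟩ : ∃ A : List Bool × List Bool × List Bool → α, A = fun q => da ⟨q.1⟩ := ⟨_, rfl⟩
  obtain ⟨C, hC⟩ : ∃ C : List Bool × List Bool × List Bool → γ, C = fun q => dc ⟨q.2.1⟩ :=
    ⟨_, rfl⟩
  obtain ⟨B, hB⟩ : ∃ B : List Bool × List Bool × List Bool → β, B = fun q => db ⟨q.2.2⟩ :=
    ⟨_, rfl⟩
  have pA : PolyTime A := by rw [hA]; exact hda.comp (by fun_prop)
  have pC : PolyTime C := by rw [hC]; exact hdc.comp (by fun_prop)
  have pB : PolyTime B := by rw [hB]; exact hdb.comp (by fun_prop)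
  have pQ : PolyTime (fun q => V (A q, C q, B q)) := hV.comp (pA.pair (pC.pair pB))
  have pX : PolyTime (fun q => (Word.mk (enc (A q))).w) :=
    PolyTime.wordToList' (PolyTime.toWord pA)
  obtain ⟨R, hR⟩ : ∃ R : List Bool × List Bool × List Bool → Bool, R = fun q =>
      Pool.Agent.Helper36.PT.dec ((Word.mk (enc (A q))).w = q.1 ∧ V (A q, C q, B q)) :=
    ⟨_, rfl⟩
  have pR : PolyTime R := by
    rw [hR]
    exact PolyTime.dec' (PolyTime.pAnd (PolyTime.pEqList pX PolyTime.fst) pQ)
  refine ⟨p, fun n => enc (adv n), R, (isPolyTime_iff_TM3 R).2 pR.toTM, h1, fun x => ?_⟩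
  have eC : ∀ w, C (x, enc (adv x.length), w) = adv x.length := by
    intro w
    rw [hC]
    exact edc _
  have eL : (langE S x = true) ↔ ∃ a ∈ S, enc a = x := by
    unfold langE
    rw [decide_eq_true_eq]
  rw [eL]
  constructor
  · rintro ⟨a, ha, rfl⟩
    obtain ⟨b, hb1, hb2⟩ := h2 a ha
    refine ⟨enc b, hb1, ?_⟩
    rw [hR]
    refine (dec_eq_true _).2 ?_
    have eA : A (enc a, enc (adv (enc a).length), enc b) = a := by rw [hA]; exact eda a
    have eB : B (enc a, enc (adv (enc a).length), enc b) = b := by rw [hB]; exact edb b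
    rw [eA, eB, eC]
    exact ⟨rfl, hb2⟩
  · rintro ⟨w, -, hw⟩
    rw [hR] at hw
    obtain ⟨k1, k2⟩ := (dec_eq_true _).1 hw
    rw [eC] at k2
    refine ⟨A (x, enc (adv x.length), w), h3 _ (B (x, enc (adv x.length), w)) ?_, k1⟩
    have e1 : esz (A (x, enc (adv x.length), w)) = x.length := congrArg List.length k1
    rw [e1]
    exact k2

end Pool.Agent.Helper9.SR
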