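import Pool.Agent.Helper9.SR.Build
import Pool.Agent.Helper73.ETSP.Corr

/-!
# Sums of square roots and Euclidean tours with small numbers: P/poly and NP/poly
-/

set_option autoImplicit false

namespace Pool.Agent.Helper9.SR

open N68a2faeb Pool.Agent.Helper36.PT Pool.Agent.Helper73.ETSP

open Classical in
/-- Yes-instances `(a, k)` of the sum of square roots problem with signs (`a` a nonempty list of
integers, `k` an integer, the sum of the signed square roots of the entries of `a` is at most `k`)
in which all but at most `t` of the entries are, up to the sign, a square times a number which is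
at most the `c`-th power of the length of the encoding of the instance. -/
def SSPb (t c : ℕ) : Set (List ℤ × ℤ) :=
  {I | I.1 ≠ [] ∧ (I.1.map sroot).sum ≤ (I.2 : ℝ) ∧
    (I.1.filter fun z => ¬ SmallSq ((N487b59b3.bitEncode I).length ^ c) z.natAbs).length ≤ t}

open Classical in
/-- Yes-instances `(P, L)` of the Euclidean travelling salesman problem (`P` a nonempty list of
distinct points with integer coordinates in some dimension `d`, which may depend on the instance)
in which all but at most `t` of the points have all their coordinates bounded, in absolute value,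
by the `c`-th power of the length of the encoding of the instance. -/
def ETSPb (t c : ℕ) : Set (List (List ℤ) × ℤ) :=
  {I | (∃ d, I ∈ ETSP d) ∧ (I.1.filter fun p => ∃ x ∈ p,
    (N487b59b3.bitEncode I).length ^ c < x.natAbs).length ≤ t}

/-! ### sums of square roots -/

theorem enc_sspb (x : List BZ × BZ) :
    enc x = N487b59b3.bitEncode ((x.1.map BZ.val, x.2.val) : List ℤ × ℤ) := by
  have h := enc_pair_eq ((x.1.map BZ.val).map BZ.mk) (BZ.mk x.2.val) (x.1.map BZ.val) x.2.val
    (encL_eq BZ.mk conv_bz _) (conv_bz _)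
  rw [← h]
  congr 1
  apply Prod.ext
  · simp only [List.map_map]
    exact (List.map_id _).symm
  · rfl

theorem lang_sspb (S : Set (List ℤ × ℤ)) : lang S =
    langE {x : List BZ × BZ | (x.1.map BZ.val, x.2.val) ∈ S} := by
  refine lang_eq S _ (fun I => (I.1.map BZ.mk, BZ.mk I.2)) (fun x => (x.1.map BZ.val, x.2.val))
    (fun I => enc_pair_eq _ _ _ _ (encL_eq BZ.mk conv_bz _) (conv_bz _)) (fun b => ?_)
    (fun b => Iff.rfl) (fun a => ?_)
  · apply Prod.ext
    · simp only [List.map_map]
      exact List.map_id _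
    · rfl
  · apply Prod.ext
    · simp only [List.map_map]
      exact List.map_id _
    · rfl

theorem lrg_length (B : ℕ) (hB : 1 ≤ B) (zs : List BZ) [DecidablePred fun z : ℤ =>
    ¬ SmallSq B z.natAbs] : (lrg B zs).length =
      ((zs.map BZ.val).filter fun z => ¬ SmallSq B z.natAbs).length := by
  unfold lrg
  rw [List.filter_map, List.length_map]
  congr 1
  refine List.filter_congr fun z _ => ?_
  rw [Bool.eq_iff_iff]
  simp only [Function.comp, Bool.not_eq_true', decide_eq_true_eq]
  rw [← sml_iff B hB z, ← Bool.not_eq_true, dec_eq_true]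

theorem one_le_esz {α β : Type} [Enc α] [Enc β] (x : α × β) : 1 ≤ esz x := by
  have : esz x = 2 * esz x.1 + 1 + esz x.2 := esz_pair x.1 x.2
  omega

/-- **Small square classes are in P/poly.** -/
theorem ssp_ppoly (t c : ℕ) : lang (SSPb t c) ∈ PPoly := by
  classical
  rw [lang_sspb]
  have hB : PolyTime (fun x : List BZ × BZ => esz x ^ c) := PolyTime.pow PolyTime.size c
  have h1 : PolyTime (fun x : List BZ × BZ => x.1) := PolyTime.fst
  have h2 : PolyTime (fun x : List BZ × BZ => x.2) := PolyTime.snd
  refine ppoly_main _ t (fun x => radA (esz x ^ c) x.1) (fun x => elF (esz x ^ c) x.1 x.2 t)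
    (fun x => x.1 ≠ [] ∧ (lrg (esz x ^ c) x.1).length ≤ t) (PolyTime.radA hB h1)
    (PolyTime.elF hB h1 h2 t) ?_ (fun x => ?_)
  · refine PolyTime.pAnd (by have := arith; fun_prop) (PolyTime.pLe ?_ (PolyTime.const t))
    exact PolyTime.length (PolyTime.lrg hB h1)
  · have h3 : (N487b59b3.bitEncode ((x.1.map BZ.val, x.2.val) : List ℤ × ℤ)).length = esz x := by
      rw [← enc_sspb]
      rfl
    have hB1 : 1 ≤ esz x ^ c := Nat.one_le_pow _ _ (one_le_esz x)
    change ((x.1.map BZ.val) ≠ [] ∧ ((x.1.map BZ.val).map sroot).sum ≤ (x.2.val : ℝ) ∧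
      ((x.1.map BZ.val).filter fun z => ¬ SmallSq ((N487b59b3.bitEncode
        ((x.1.map BZ.val, x.2.val) : List ℤ × ℤ)).length ^ c) z.natAbs).length ≤ t) ↔ _
    rw [h3, ← lrg_length (esz x ^ c) hB1 x.1]
    constructor
    · rintro ⟨k1, k2, k3⟩
      refine ⟨⟨fun h => k1 (by rw [h]; rfl), k3⟩, ?_⟩
      rw [valE_elF _ _ _ _ k3]
      linarith
    · rintro ⟨⟨k1, k2⟩, k3⟩
      rw [valE_elF _ _ _ _ k2] at k3
      exact ⟨fun h => k1 (List.map_eq_nil_iff.mp h), by linarith, k2⟩

/-! ### tours -/

theorem enc_tsp (x : List (List BZ) × BZ) :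
    enc x = N487b59b3.bitEncode ((x.1.map (fun p => p.map BZ.val), x.2.val) :
      List (List ℤ) × ℤ) := by
  have h := enc_pair_eq ((x.1.map (fun p => p.map BZ.val)).map fun p => p.map BZ.mk)
    (BZ.mk x.2.val) (x.1.map (fun p => p.map BZ.val)) x.2.val
    (encL_eq _ (encL_eq BZ.mk conv_bz) _) (conv_bz _)
  rw [← h]
  congr 1
  apply Prod.ext
  · simp only [List.map_map]
    refine ((List.map_congr_left fun p _ => ?_).trans (List.map_id _)).symm
    simp only [Function.comp, List.map_map]
    exact List.map_id _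
  · rfl

theorem filter_zipWith_le {M N : Type} (f : M → M → N) (P : N → Bool) (b : M → Bool)
    (l l' : List M) (h : ∀ p ∈ l, ∀ q ∈ l', P (f p q) = true → b p = true ∨ b q = true) :
    ((List.zipWith f l l').filter P).length ≤ (l.filter b).length + (l'.filter b).length := by
  induction l generalizing l' with
  | nil => simp
  | cons p l ih =>
    cases l' with
    | nil => simp
    | cons q l' =>
      have h1 := ih l' fun p hp q hq => h p (List.mem_cons_of_mem _ hp) q
        (List.mem_cons_of_mem _ hq)
      have h2 := h p (List.mem_cons_self ..) q (List.mem_cons_self ..)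
      rw [List.zipWith_cons_cons, List.filter_cons, List.filter_cons, List.filter_cons]
      by_cases h3 : P (f p q) = true
      · rw [if_pos h3]
        rcases h2 h3 with h4 | h4
        · rw [if_pos h4]
          split_ifs <;> simp only [List.length_cons] <;> omega
        · rw [if_pos h4]
          split_ifs <;> simp only [List.length_cons] <;> omega
      · rw [if_neg h3]
        split_ifs <;> first | omega | (simp only [List.length_cons]; omega)

theorem sqDist_le (D M : ℕ) (p q : List ℤ) (hp : p.length ≤ D) (h1 : ∀ x ∈ p, x.natAbs ≤ M)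
    (h2 : ∀ x ∈ q, x.natAbs ≤ M) : sqDist p q ≤ D * (2 * M) ^ 2 := by
  unfold sqDist
  have h3 : ∀ y ∈ List.zipWith (fun x y : ℤ => (x - y).natAbs ^ 2) p q, y ≤ (2 * M) ^ 2 := by
    intro y hy
    obtain ⟨i, hi, rfl⟩ := List.mem_iff_getElem.mp hy
    rw [List.getElem_zipWith]
    refine Nat.pow_le_pow_left ?_ 2
    have h4 := h1 _ (List.getElem_mem (l := p) (n := i) (by
      rw [List.length_zipWith] at hi
      omega))
    have h5 := h2 _ (List.getElem_mem (l := q) (n := i) (by
      rw [List.length_zipWith] at hi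
      omega))
    omega
  refine (List.sum_le_card_nsmul _ _ h3).trans ?_
  rw [smul_eq_mul]
  refine Nat.mul_le_mul_right _ ?_
  rw [List.length_zipWith]
  omega

/-- the integers whose square roots are the lengths of the edges of the tour `l` -/
def edg (l : List (List BZ)) : List BZ :=
  (List.zipWith bDist l (l.tail ++ l.take 1)).map zOf

theorem polyTime_edg {α : Type} [Enc α] {l : α → List (List BZ)} (hl : PolyTime l) :
    PolyTime (fun a => edg (l a)) := by
  have := arith
  unfold edg
  fun_prop

theorem edg_val (l : List (List BZ)) : ((edg l).map BZ.val).map sroot =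
    (List.zipWith sqDist (l.map fun p => p.map BZ.val)
      ((l.map fun p => p.map BZ.val).rotate 1)).map fun a : ℕ => Real.sqrt (a : ℝ) := by
  have h := red2_fst l (([], BZ.mk 0))
  change (List.zipWith bDist l (l.tail ++ l.take 1)).map BN.val = _ at h
  rw [← h]
  unfold edg
  rw [List.map_map, List.map_map, List.map_map]
  refine List.map_congr_left fun n _ => ?_
  simp only [Function.comp]
  unfold sroot zOf
  rcases Nat.eq_zero_or_pos n.val with h1 | h1
  · rw [h1]
    simp
  · have h2 : (0 : ℤ) < (n.val : ℤ) := by exact_mod_cast h1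
    dsimp only
    rw [Int.sign_eq_one_of_pos h2]
    simp

/-- points with a large coordinate -/
def big (M : ℕ) (p : List BZ) : Prop := ∃ z ∈ p, (bOf M).val < (zAbs z).val

theorem polyTime_big {α : Type} [Enc α] {M : α → ℕ} {p : α → List BZ} (hM : PolyTime M)
    (hp : PolyTime p) : PolyTime (fun a => big (M a) (p a)) := by
  have := arith
  have h1 : PolyTime (fun q : α × BZ => (bOf (M q.1)).val < (zAbs q.2).val) := by
    have h2 : PolyTime (fun q : α × BZ => bOf (M q.1)) := PolyTime.bOf (hM.comp PolyTime.fst)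
    have h3 : PolyTime (fun q : α × BZ => zAbs q.2) := PolyTime.zAbs PolyTime.snd
    exact PolyTime.pBnLt h2 h3
  exact PolyTime.pExMem hp h1

/-- the condition on the certificate -/
def cond (t c : ℕ) (x : (List (List BZ) × BZ) × List (List BZ)) : Prop :=
  x.1.1 ≠ [] ∧ NoRep x.1.1 ∧ (∀ p ∈ x.1.1, p.length = (x.1.1.headD []).length) ∧ NoRep x.2 ∧
    x.2.length = x.1.1.length ∧ (∀ p ∈ x.2, p ∈ x.1.1) ∧
    (x.1.1.filter fun p => dec (big (esz x.1 ^ c) p)).length ≤ t

theorem polyTime_cond (t c : ℕ) : PolyTime (cond t c) := by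
  have := arith
  have v1 : PolyTime (fun x : (List (List BZ) × BZ) × List (List BZ) => x.1.1 ≠ []) := by
    fun_prop
  have v2 : PolyTime (fun x : (List (List BZ) × BZ) × List (List BZ) => NoRep x.1.1) :=
    PolyTime.noRep (by fun_prop)
  have v3 : PolyTime (fun x : (List (List BZ) × BZ) × List (List BZ) =>
    ∀ p ∈ x.1.1, p.length = (x.1.1.headD []).length) := by fun_prop
  have v4 : PolyTime (fun x : (List (List BZ) × BZ) × List (List BZ) => NoRep x.2) :=
    PolyTime.noRep (by fun_prop)
  have v5 : PolyTime (fun x : (List (List BZ) × BZ) × List (List BZ) =>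
    x.2.length = x.1.1.length) := by fun_prop
  have v6 : PolyTime (fun x : (List (List BZ) × BZ) × List (List BZ) =>
    ∀ p ∈ x.2, p ∈ x.1.1) := by fun_prop
  have v7 : PolyTime (fun x : (List (List BZ) × BZ) × List (List BZ) =>
      (x.1.1.filter fun p => dec (big (esz x.1 ^ c) p)).length ≤ t) := by
    refine PolyTime.pLe (PolyTime.length (PolyTime.filter (by fun_prop) (PolyTime.dec' ?_)))
      (PolyTime.const t)
    exact polyTime_big (by fun_prop) PolyTime.snd
  exact v1.pAnd (v2.pAnd (v3.pAnd (v4.pAnd (v5.pAnd (v6.pAnd v7)))))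

theorem perm_of_cond {t c : ℕ} {x : (List (List BZ) × BZ) × List (List BZ)} (h : cond t c x) :
    x.2.Perm x.1.1 := by
  obtain ⟨-, -, -, h4, h5, h6, -⟩ := h
  have hsub : x.2 ⊆ x.1.1 := h6
  exact (List.subperm_of_subset ((noRep_iff _).mp h4) hsub).perm_of_length_le h5.ge

/-- the bound for the small radicands -/
def bnd (c n : ℕ) : ℕ := 4 * n ^ (2 * c + 1)

theorem lrg_edg {t c : ℕ} {x : (List (List BZ) × BZ) × List (List BZ)} (h : cond t c x) :
    (lrg (bnd c (esz x.1)) (edg x.2)).length ≤ 2 * t := by
  have hperm := perm_of_cond h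
  obtain ⟨-, -, h3, -, -, -, h7⟩ := h
  have hn : 1 ≤ esz x.1 := one_le_esz x.1
  have hB : 1 ≤ bnd c (esz x.1) := by
    unfold bnd
    have : 1 ≤ esz x.1 ^ (2 * c + 1) := Nat.one_le_pow _ _ hn
    omega
  have hrot : (x.2.tail ++ x.2.take 1) = x.2.rotate 1 := (rotate_one _).symm
  have e1 : lrg (bnd c (esz x.1)) (edg x.2) = (List.zipWith (fun p q => zOf (bDist p q)) x.2
      (x.2.rotate 1)).filter fun z => !(dec (sml (bnd c (esz x.1)) z)) := by
    unfold lrg edg
    rw [hrot, List.map_zipWith]
  rw [e1]
  have hmem : ∀ p ∈ x.2, p.length ≤ esz x.1 := by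
    intro p hp
    have k1 : p ∈ x.1.1 := hperm.mem_iff.mp hp
    have k2 := esz_mem_le k1
    have k3 : esz x.1 = 2 * esz x.1.1 + 1 + esz x.1.2 := esz_pair x.1.1 x.1.2
    have k4 := length_le_esz p
    omega
  have hsmall : ∀ p : List BZ, ¬ (dec (big (esz x.1 ^ c) p) = true) →
      ∀ y ∈ p.map BZ.val, y.natAbs ≤ esz x.1 ^ c := by
    intro p hp y hy
    rw [dec_eq_true] at hp
    obtain ⟨z, hz, rfl⟩ := List.mem_map.mp hy
    by_contra hcon
    push Not at hcon
    exact hp ⟨z, hz, hcon⟩
  have key := filter_zipWith_le (fun p q => zOf (bDist p q))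
    (fun z => !(dec (sml (bnd c (esz x.1)) z))) (fun p => dec (big (esz x.1 ^ c) p))
    x.2 (x.2.rotate 1) (fun p hp q hq hpq => by
      by_contra hcon
      push Not at hcon
      obtain ⟨c1, c2⟩ := hcon
      have d1 := sqDist_le (esz x.1) (esz x.1 ^ c) (p.map BZ.val) (q.map BZ.val)
        (by rw [List.length_map]; exact hmem p hp) (hsmall p (by simpa using c1))
        (hsmall q (by simpa using c2))
      have d2 : sml (bnd c (esz x.1)) (zOf (bDist p q)) := by
        rw [sml_iff _ hB]
        refine ⟨sqDist (p.map BZ.val) (q.map BZ.val), 1, d1.trans ?_, ?_⟩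
        · unfold bnd
          refine le_of_eq ?_
          ring
        · rw [bDist_eq]
          unfold zOf
          simp
      simp only [Bool.not_eq_true'] at hpq
      rw [(dec_eq_true _).mpr d2] at hpq
      exact Bool.noConfusion hpq)
  have h8 : ((x.2.rotate 1).filter fun p => dec (big (esz x.1 ^ c) p)).length =
      (x.1.1.filter fun p => dec (big (esz x.1 ^ c) p)).length :=
    (((List.rotate_perm x.2 1).trans hperm).filter _).length_eq
  have h9 : (x.2.filter fun p => dec (big (esz x.1 ^ c) p)).length =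
      (x.1.1.filter fun p => dec (big (esz x.1 ^ c) p)).length := (hperm.filter _).length_eq
  rw [h8, h9] at key
  omega

theorem valE_edg {t c : ℕ} {x : (List (List BZ) × BZ) × List (List BZ)} (h : cond t c x) :
    valE (2 * t) (radA (bnd c (esz x.1)) (edg x.2)) (elF (bnd c (esz x.1)) (edg x.2) x.1.2 (2 * t)) =
      (x.1.2.val : ℝ) - tourLen (x.2.map fun p => p.map BZ.val) := by
  rw [valE_elF _ _ _ _ (lrg_edg h), edg_val, sum_sqrt_red2]

/-- **Euclidean tours through points with small coordinates are in NP/poly.** -/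
theorem tsp_nppoly (t c : ℕ) : lang (ETSPb t c) ∈ NPPoly := by
  classical
  have := arith
  have hinj : Function.Injective fun p : List BZ => p.map BZ.val :=
    List.map_injective_iff.mpr fun a b hab => by
      cases a
      cases b
      exact congrArg BZ.mk hab
  rw [lang_tsp]
  have hB : PolyTime (fun x : (List (List BZ) × BZ) × List (List BZ) => bnd c (esz x.1)) := by
    unfold bnd
    fun_prop
  have h1 : PolyTime (fun x : (List (List BZ) × BZ) × List (List BZ) => edg x.2) :=
    polyTime_edg PolyTime.snd
  have h2 : PolyTime (fun x : (List (List BZ) × BZ) × List (List BZ) => x.1.2) := by fun_prop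
  have hbig : ∀ x : List (List BZ) × BZ, ∀ [DecidablePred fun p : List ℤ => ∃ y ∈ p,
      (N487b59b3.bitEncode ((x.1.map (fun p => p.map BZ.val), x.2.val) :
      List (List ℤ) × ℤ)).length ^ c < y.natAbs],
      ((x.1.map (fun p => p.map BZ.val)).filter fun p => ∃ y ∈ p,
      (N487b59b3.bitEncode ((x.1.map (fun p => p.map BZ.val), x.2.val) :
      List (List ℤ) × ℤ)).length ^ c < y.natAbs).length =
      (x.1.filter fun p => dec (big (esz x ^ c) p)).length := by
    intro x _
    have h3 : (N487b59b3.bitEncode ((x.1.map (fun p => p.map BZ.val), x.2.val) :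
      List (List ℤ) × ℤ)).length = esz x := by
      rw [← enc_tsp]
      rfl
    rw [List.filter_map, List.length_map]
    congr 1
    refine List.filter_congr fun p _ => ?_
    rw [Bool.eq_iff_iff, dec_eq_true]
    simp only [Function.comp, decide_eq_true_eq]
    rw [h3]
    unfold big bOf zAbs
    constructor
    · rintro ⟨y, hy, hlt⟩
      obtain ⟨z, hz, rfl⟩ := List.mem_map.mp hy
      exact ⟨z, hz, hlt⟩
    · rintro ⟨z, hz, hlt⟩
      exact ⟨z.val, List.mem_map_of_mem hz, hlt⟩
  refine nppoly_main _ (2 * t) (fun x => radA (bnd c (esz x.1)) (edg x.2))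
    (fun x => elF (bnd c (esz x.1)) (edg x.2) x.1.2 (2 * t)) (cond t c) (PolyTime.radA hB h1)
    (PolyTime.elF hB h1 h2 (2 * t)) (polyTime_cond t c) 1 ?_ ?_
  · rintro x ⟨⟨d, hx1, hx2, hx3, l, hl, hle⟩, hx4⟩
    obtain ⟨c', rfl⟩ : ∃ c' : List (List BZ), c'.map (fun p => p.map BZ.val) = l := by
      refine ⟨l.map fun p => p.map BZ.mk, ?_⟩
      rw [List.map_map]
      refine (List.map_congr_left fun p _ => ?_).trans (List.map_id _)
      simp only [Function.comp, List.map_map]
      exact List.map_id _
    have hperm : c'.Perm x.1 := (List.map_perm_map_iff hinj).mp hl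
    have hnd : x.1.Nodup := hx2.of_map _
    have hne : x.1 ≠ [] := by
      intro h4
      apply hx1
      change x.1.map (fun p => p.map BZ.val) = []
      rw [h4]
      rfl
    have hlen : ∀ p ∈ x.1, p.length = d := by
      intro p hp
      have := hx3 _ (List.mem_map_of_mem hp)
      rwa [List.length_map] at this
    have hlen' : ∀ p ∈ x.1, p.length = (x.1.headD []).length := by
      intro p hp
      rw [hlen p hp]
      obtain ⟨q, l', hq⟩ := List.exists_cons_of_ne_nil hne
      rw [hq, List.headD_cons]
      exact (hlen q (by rw [hq]; exact List.mem_cons_self ..)).symm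
    have hcond : cond t c (x, c') := ⟨hne, (noRep_iff _).mpr hnd, hlen',
      (noRep_iff _).mpr (hperm.nodup_iff.mpr hnd), hperm.length_eq,
      fun p hp => hperm.mem_iff.mp hp, by
        have h5 := hx4
        change ((x.1.map (fun p => p.map BZ.val)).filter fun p => ∃ y ∈ p,
          (N487b59b3.bitEncode ((x.1.map (fun p => p.map BZ.val), x.2.val) :
          List (List ℤ) × ℤ)).length ^ c < y.natAbs).length ≤ t at h5
        rw [hbig x] at h5
        exact h5⟩
    refine ⟨c', ?_, hcond, ?_⟩
    · have e : esz x = 2 * esz x.1 + 1 + esz x.2 := esz_pair x.1 x.2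
      have e2 := esz_perm hperm
      rw [pow_one]
      omega
    · rw [valE_edg hcond]
      linarith
  · intro x l hcond hval
    rw [valE_edg hcond] at hval
    have hperm : l.Perm x.1 := perm_of_cond hcond
    obtain ⟨k1, k2, k3, k4, k5, k6, k7⟩ := hcond
    refine ⟨⟨(x.1.headD []).length, ?_, ?_, ?_, l.map (fun p => p.map BZ.val), hperm.map _, ?_⟩, ?_⟩
    · change x.1.map (fun p => p.map BZ.val) ≠ []
      intro h10
      exact k1 (List.map_eq_nil_iff.mp h10)
    · exact ((noRep_iff _).mp k2).map hinj
    · intro p hp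
      obtain ⟨q, hq, rfl⟩ := List.mem_map.mp hp
      rw [List.length_map]
      exact k3 q hq
    · change tourLen (l.map fun p => p.map BZ.val) ≤ (x.2.val : ℝ)
      linarith
    · change ((x.1.map (fun p => p.map BZ.val)).filter fun p => ∃ y ∈ p,
        (N487b59b3.bitEncode ((x.1.map (fun p => p.map BZ.val), x.2.val) :
        List (List ℤ) × ℤ)).length ^ c < y.natAbs).length ≤ t
      rw [hbig x]
      exact k7

end Pool.Agent.Helper9.SR
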