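import Pool.Agent.Helper9.SR.Advice

/-!
# Languages defined by the sign of a combination of square roots
-/

set_option autoImplicit false

namespace Pool.Agent.Helper9.SR

open N68a2faeb Pool.Agent.Helper36.PT Pool.Agent.Helper73.ETSP

variable {α β γ : Type} [Enc α] [Enc β] [Enc γ]

theorem ppoly_main [Dec α] (S : Set α) (T : ℕ) (A : α → List BN) (F : α → El T) (Q : α → Prop)
    (hA : PolyTime A) (hF : PolyTime F) (hQ : PolyTime Q)
    (h : ∀ a, a ∈ S ↔ Q a ∧ 0 ≤ valE T (A a) (F a)) : langE S ∈ PPoly := by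
  obtain ⟨d, hd⟩ := (PolyTime.baseE T hA hF).bdd
  have hch : ∀ s : ℕ, ∃ w : List BZ, esz w ≤ advB s ∧
    ∀ u : List (BZ × ℕ), esz u ≤ s → (tst w u ↔ 0 ≤ valL u) := advice
  choose W hW1 hW2 using hch
  have hV : PolyTime (fun q : α × List BZ => Q q.1 ∧ nnE T (A q.1) (tst q.2) (F q.1)) := by
    refine PolyTime.pAnd (hQ.comp PolyTime.fst) ?_
    refine PolyTime.nnE T (hA.comp PolyTime.fst) (fun l hl => ?_) (hF.comp PolyTime.fst)
    exact PolyTime.tst PolyTime.snd hl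
  refine ppoly_of S (fun q : α × List BZ => Q q.1 ∧ nnE T (A q.1) (tst q.2) (F q.1)) hV
    (fun n => W ((n + 2) ^ d)) (advP.comp ((Polynomial.X + 2) ^ d)) (fun n => ?_) (fun a => ?_)
  · rw [Polynomial.eval_comp, Polynomial.eval_pow, Polynomial.eval_add, Polynomial.eval_X,
      Polynomial.eval_ofNat, advP_eval]
    exact hW1 _
  · rw [h a]
    refine and_congr_right fun _ => ?_
    refine (nnE_iff T (A a) _ (F a) fun l hl => ?_).symm
    exact hW2 _ l ((esz_mem_le hl).trans (hd a))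

theorem nppoly_main [Dec α] [Dec β] (S : Set α) (T : ℕ) (A : α × β → List BN)
    (F : α × β → El T) (Q : α × β → Prop) (hA : PolyTime A) (hF : PolyTime F) (hQ : PolyTime Q)
    (e : ℕ) (h1 : ∀ a ∈ S, ∃ b, esz b ≤ (esz a + 2) ^ e ∧ Q (a, b) ∧
      0 ≤ valE T (A (a, b)) (F (a, b)))
    (h2 : ∀ a b, Q (a, b) → 0 ≤ valE T (A (a, b)) (F (a, b)) → a ∈ S) :
    langE S ∈ NPPoly := by
  obtain ⟨d, hd⟩ := (PolyTime.baseE T hA hF).bdd
  have hch : ∀ s : ℕ, ∃ w : List BZ, esz w ≤ advB s ∧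
    ∀ u : List (BZ × ℕ), esz u ≤ s → (tst w u ↔ 0 ≤ valL u) := advice
  choose W hW1 hW2 using hch
  have hp : PolyTime (fun q : α × List BZ × β => (q.1, q.2.2)) := by fun_prop
  have hV : PolyTime (fun q : α × List BZ × β => esz q.2.2 ≤ (esz q.1 + 2) ^ e ∧
      Q (q.1, q.2.2) ∧ nnE T (A (q.1, q.2.2)) (tst q.2.1) (F (q.1, q.2.2))) := by
    refine PolyTime.pAnd (by fun_prop) (PolyTime.pAnd (hQ.comp hp) ?_)
    refine PolyTime.nnE T (hA.comp hp) (fun l hl => ?_) (hF.comp hp)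
    exact PolyTime.tst (by fun_prop) hl
  obtain ⟨s, hs⟩ : ∃ s : ℕ → ℕ, s = fun n => (2 * n + 1 + (n + 2) ^ e + 2) ^ d := ⟨_, rfl⟩
  have key : ∀ a b, esz b ≤ (esz a + 2) ^ e → (nnE T (A (a, b)) (tst (W (s (esz a)))) (F (a, b)) ↔
      0 ≤ valE T (A (a, b)) (F (a, b))) := by
    intro a b hb
    refine nnE_iff T (A (a, b)) _ (F (a, b)) fun l hl => ?_
    refine hW2 _ l ((esz_mem_le hl).trans ((hd (a, b)).trans ?_))
    rw [hs]
    refine Nat.pow_le_pow_left ?_ d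
    rw [esz_pair]
    omega
  refine nppoly_of S (fun q : α × List BZ × β => esz q.2.2 ≤ (esz q.1 + 2) ^ e ∧
      Q (q.1, q.2.2) ∧ nnE T (A (q.1, q.2.2)) (tst q.2.1) (F (q.1, q.2.2))) hV
    (fun n => W (s n)) (advP.comp ((2 * Polynomial.X + 1 + (Polynomial.X + 2) ^ e + 2) ^ d) +
      (Polynomial.X + 2) ^ e) (fun n => ?_) (fun a ha => ?_) (fun a b hab => ?_)
  · refine le_trans ?_ (Nat.le_of_eq (Polynomial.eval_add).symm)
    refine le_trans ?_ (Nat.le_add_right _ _)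
    rw [Polynomial.eval_comp]
    simp only [Polynomial.eval_add, Polynomial.eval_mul, Polynomial.eval_pow, Polynomial.eval_X,
      Polynomial.eval_ofNat, Polynomial.eval_one, advP_eval]
    rw [hs]
    exact hW1 _
  · obtain ⟨b, hb1, hb2, hb3⟩ := h1 a ha
    refine ⟨b, ?_, hb1, hb2, (key a b hb1).2 hb3⟩
    refine le_trans ?_ (Nat.le_of_eq (Polynomial.eval_add).symm)
    refine le_trans ?_ (Nat.le_add_left _ _)
    simp only [Polynomial.eval_add, Polynomial.eval_pow, Polynomial.eval_X,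
      Polynomial.eval_ofNat]
    exact hb1
  · obtain ⟨k1, k2, k3⟩ := hab
    exact h2 a b k2 ((key a b k1).1 k3)

end Pool.Agent.Helper9.SR
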