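import Mathlib

/-!
# Rounding of a real linear form to a small integral linear form with the same signs

The argument of Frank and Tardos: iterated simultaneous approximation.
-/

set_option autoImplicit false

namespace Pool.Agent.Helper9.SR

open Finset

variable {ι : Type*} [Fintype ι]

/-- simultaneous approximation (Dirichlet) -/
theorem dirichlet (β : ι → ℝ) (T : ℕ) (hT : 1 ≤ T) :
    ∃ (q : ℕ) (p : ι → ℤ), 1 ≤ q ∧ q ≤ T ^ Fintype.card ι ∧
      ∀ i, |(q : ℝ) * β i - p i| < 1 / T := by
  classical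
  have hT0 : (0 : ℝ) < T := by exact_mod_cast hT
  have hfl : ∀ x : ℝ, ⌊(T : ℝ) * Int.fract x⌋₊ < T := by
    intro x
    rw [Nat.floor_lt (mul_nonneg hT0.le (Int.fract_nonneg x))]
    calc (T : ℝ) * Int.fract x < T * 1 := by
          exact mul_lt_mul_of_pos_left (Int.fract_lt_one x) hT0
      _ = T := mul_one _
  let f : ℕ → ι → Fin T := fun k i => ⟨⌊(T : ℝ) * Int.fract ((k : ℝ) * β i)⌋₊, hfl _⟩
  have hcard : (univ : Finset (ι → Fin T)).card < (range (T ^ Fintype.card ι + 1)).card := by
    rw [card_range, card_univ, Fintype.card_fun, Fintype.card_fin]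
    omega
  obtain ⟨k, hk, k', hk', hne, hkk⟩ := exists_ne_map_eq_of_card_lt_of_maps_to hcard
    (f := f) (fun k _ => mem_univ _)
  have key : ∀ k k' : ℕ, k < k' → k' ≤ T ^ Fintype.card ι → f k = f k' →
      ∃ (q : ℕ) (p : ι → ℤ), 1 ≤ q ∧ q ≤ T ^ Fintype.card ι ∧
      ∀ i, |(q : ℝ) * β i - p i| < 1 / T := by
    intro k k' hlt hle hff
    refine ⟨k' - k, fun i => ⌊(k' : ℝ) * β i⌋ - ⌊(k : ℝ) * β i⌋, by omega, by omega, fun i => ?_⟩
    have h1 : ⌊(T : ℝ) * Int.fract ((k : ℝ) * β i)⌋₊ = ⌊(T : ℝ) * Int.fract ((k' : ℝ) * β i)⌋₊ :=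
      congrArg Fin.val (congrFun hff i)
    have a1 := Nat.floor_le (mul_nonneg hT0.le (Int.fract_nonneg ((k : ℝ) * β i)))
    have a2 := Nat.lt_floor_add_one ((T : ℝ) * Int.fract ((k : ℝ) * β i))
    have b1 := Nat.floor_le (mul_nonneg hT0.le (Int.fract_nonneg ((k' : ℝ) * β i)))
    have b2 := Nat.lt_floor_add_one ((T : ℝ) * Int.fract ((k' : ℝ) * β i))
    rw [← h1] at b1 b2
    have e1 : ((k' - k : ℕ) : ℝ) * β i - ((⌊(k' : ℝ) * β i⌋ - ⌊(k : ℝ) * β i⌋ : ℤ) : ℝ) =
        Int.fract ((k' : ℝ) * β i) - Int.fract ((k : ℝ) * β i) := by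
      rw [Nat.cast_sub hlt.le, Int.cast_sub]
      have c1 := Int.floor_add_fract ((k' : ℝ) * β i)
      have c2 := Int.floor_add_fract ((k : ℝ) * β i)
      linarith
    have e2 : |Int.fract ((k' : ℝ) * β i) - Int.fract ((k : ℝ) * β i)| * T =
        |(Int.fract ((k' : ℝ) * β i) - Int.fract ((k : ℝ) * β i)) * T| := by
      rw [abs_mul, abs_of_pos hT0]
    rw [e1, lt_div_iff₀ hT0, e2, abs_lt]
    constructor
    · linarith
    · linarith
  rw [mem_range] at hk hk'
  rcases lt_or_gt_of_ne hne with h | h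
  · exact key k k' h (by omega) hkk
  · exact key k' k h (by omega) hkk.symm

/-- the base of the bound -/
def bas (N m : ℕ) : ℕ := (N + 1) * ((N + 1) ^ m + 2)

theorem one_le_bas (N m : ℕ) : 1 ≤ bas N m := by
  unfold bas
  exact Nat.mul_pos (Nat.succ_pos _) (by omega)

theorem abs_sum_le {N : ℕ} (c : ι → ℤ) (x : ι → ℝ) (δ : ℝ)
    (hc : ∑ i, |c i| ≤ (N : ℤ)) (hx : ∀ i, |x i| ≤ δ) (hδ : 0 ≤ δ) :
    |∑ i, (c i : ℝ) * x i| ≤ N * δ := by
  calc |∑ i, (c i : ℝ) * x i| ≤ ∑ i, |(c i : ℝ) * x i| := abs_sum_le_sum_abs _ _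
    _ ≤ ∑ i, |(c i : ℝ)| * δ := by
        refine sum_le_sum fun i _ => ?_
        rw [abs_mul]
        exact mul_le_mul_of_nonneg_left (hx i) (abs_nonneg _)
    _ = (∑ i, |(c i : ℝ)|) * δ := by rw [sum_mul]
    _ ≤ N * δ := by
        refine mul_le_mul_of_nonneg_right ?_ hδ
        have : ((∑ i, |c i| : ℤ) : ℝ) ≤ ((N : ℤ) : ℝ) := by exact_mod_cast hc
        push_cast at this
        exact this

theorem round_aux (N : ℕ) : ∀ (z : ℕ) (α : ι → ℝ), (univ.filter fun i => α i ≠ 0).card ≤ z →
    ∃ w : ι → ℤ, (∀ i, |w i| + 1 ≤ ((bas N (Fintype.card ι)) ^ z : ℕ)) ∧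
      ∀ c : ι → ℤ, ∑ i, |c i| ≤ (N : ℤ) →
        (0 < ∑ i, (c i : ℝ) * α i → 0 < ∑ i, c i * w i) ∧
        (∑ i, (c i : ℝ) * α i = 0 → ∑ i, c i * w i = 0) := by
  classical
  intro z
  induction z with
  | zero =>
    intro α hα
    have h0 : ∀ i, α i = 0 := by
      intro i
      by_contra h
      have : i ∈ univ.filter fun i => α i ≠ 0 := by simp [h]
      have h1 := card_pos.mpr ⟨i, this⟩
      omega
    refine ⟨fun _ => 0, fun i => by simp, fun c _ => ⟨fun h => ?_, fun _ => by simp⟩⟩
    simp [h0] at h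
  | succ z ih =>
    intro α hα
    by_cases hz : (univ.filter fun i => α i ≠ 0).card ≤ z
    · obtain ⟨w, hw1, hw2⟩ := ih α hz
      refine ⟨w, fun i => (hw1 i).trans ?_, hw2⟩
      exact_mod_cast Nat.pow_le_pow_right (one_le_bas _ _) (Nat.le_succ z)
    have hne : (univ.filter fun i => α i ≠ 0).Nonempty := by
      rw [← card_pos]
      omega
    obtain ⟨i1, hi1⟩ := hne
    obtain ⟨i0, -, hi0⟩ := exists_max_image (univ : Finset ι) (fun i => |α i|) ⟨i1, mem_univ _⟩
    obtain ⟨M, hM⟩ : ∃ M, M = |α i0| := ⟨_, rfl⟩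
    have hMpos : 0 < M := by
      have h1 : α i1 ≠ 0 := by simpa using hi1
      have h2 := hi0 i1 (mem_univ _)
      rw [hM]
      exact lt_of_lt_of_le (abs_pos.mpr h1) h2
    obtain ⟨m, hm⟩ : ∃ m, m = Fintype.card ι := ⟨_, rfl⟩
    obtain ⟨q, p, hq1, hq2, hp⟩ := dirichlet (fun i => α i / M) (N + 1) (by omega)
    have hT1 : (1 : ℝ) / ((N + 1 : ℕ) : ℝ) ≤ 1 := by
      rw [div_le_one (by positivity)]
      push_cast
      linarith [(Nat.cast_nonneg N : (0 : ℝ) ≤ N)]
    have hβ : ∀ i, |α i / M| ≤ 1 := by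
      intro i
      rw [abs_div, abs_of_pos hMpos, div_le_one hMpos, hM]
      exact hi0 i (mem_univ _)
    -- the new vector
    obtain ⟨α', hα'⟩ : ∃ α' : ι → ℝ, ∀ i, α' i = (q : ℝ) * (α i / M) - p i := ⟨_, fun _ => rfl⟩
    have hp' : ∀ i, |α' i| < 1 / ((N + 1 : ℕ) : ℝ) := fun i => by rw [hα']; exact hp i
    have int0 : ∀ n : ℤ, |(n : ℝ)| < 1 → n = 0 := by
      intro n hn
      have : |n| < 1 := by exact_mod_cast hn
      exact Int.abs_lt_one_iff.mp this
    have hz0 : ∀ i, α i = 0 → α' i = 0 := by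
      intro i hi
      have h1 := hp' i
      rw [hα', hi, zero_div, mul_zero, zero_sub, abs_neg] at h1
      have h2 := int0 (p i) (lt_of_lt_of_le h1 hT1)
      rw [hα', hi, h2]
      simp
    have hi0' : α' i0 = 0 := by
      have h1 := hp' i0
      rcases abs_choice (α i0) with h | h
      · have h3 : α i0 / M = 1 := by
          rw [hM, h]
          refine div_self ?_
          intro h4
          rw [hM, h4, abs_zero] at hMpos
          exact lt_irrefl _ hMpos
        rw [hα', h3, mul_one] at h1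
        have h2 := int0 ((q : ℤ) - p i0) (by push_cast; exact lt_of_lt_of_le h1 hT1)
        rw [hα', h3, mul_one]
        have : ((q : ℤ) : ℝ) - (p i0 : ℝ) = 0 := by exact_mod_cast h2
        simpa using this
      · have h3 : α i0 / M = -1 := by
          rw [hM, h, div_neg, neg_inj]
          refine div_self ?_
          intro h4
          rw [hM, h4, abs_zero] at hMpos
          exact lt_irrefl _ hMpos
        rw [hα', h3] at h1
        have h2 := int0 (-(q : ℤ) - p i0) (by
          push_cast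
          have : (q : ℝ) * -1 - (p i0 : ℝ) = -(q : ℝ) - (p i0 : ℝ) := by ring
          rw [← this]
          exact lt_of_lt_of_le h1 hT1)
        rw [hα', h3]
        have : (-(q : ℤ) : ℝ) - (p i0 : ℝ) = 0 := by exact_mod_cast h2
        have h5 : ((q : ℤ) : ℝ) = (q : ℝ) := by simp
        rw [h5] at this
        linarith
    have hcard : (univ.filter fun i => α' i ≠ 0).card ≤ z := by
      have hsub : (univ.filter fun i => α' i ≠ 0) ⊆ (univ.filter fun i => α i ≠ 0).erase i0 := by
        intro i hi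
        rw [mem_filter] at hi
        rw [mem_erase, mem_filter]
        refine ⟨fun h => hi.2 (h ▸ hi0'), mem_univ _, fun h => hi.2 (hz0 i h)⟩
      have h1 := card_le_card hsub
      have h2 : i0 ∈ univ.filter fun i => α i ≠ 0 := by
        rw [mem_filter]
        refine ⟨mem_univ _, fun h => ?_⟩
        rw [hM, h, abs_zero] at hMpos
        exact lt_irrefl _ hMpos
      rw [card_erase_of_mem h2] at h1
      omega
    obtain ⟨w', hw1, hw2⟩ := ih α' hcard
    obtain ⟨B, hB⟩ : ∃ B : ℕ, B = (bas N (Fintype.card ι)) ^ z := ⟨_, rfl⟩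
    rw [← hB] at hw1
    have hB1 : 1 ≤ B := by
      rw [hB]
      exact Nat.one_le_pow _ _ (one_le_bas _ _)
    obtain ⟨K, hK⟩ : ∃ K : ℤ, K = (N : ℤ) * B + 1 := ⟨_, rfl⟩
    refine ⟨fun i => K * p i + w' i, fun i => ?_, fun c hc => ?_⟩
    · -- the bound
      have hpi : |p i| ≤ ((N + 1) ^ m : ℕ) + 1 := by
        have h1 := hp i
        have h2 : |(p i : ℝ)| ≤ ((N + 1 : ℕ) ^ m : ℕ) + 1 := by
          have h3 : (p i : ℝ) = (q : ℝ) * (α i / M) - ((q : ℝ) * (α i / M) - p i) := by ring
          rw [h3]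
          refine (abs_sub _ _).trans ?_
          refine add_le_add ?_ (h1.le.trans hT1)
          rw [abs_mul]
          calc |(q : ℝ)| * |α i / M| ≤ |(q : ℝ)| * 1 :=
                mul_le_mul_of_nonneg_left (hβ i) (abs_nonneg _)
            _ = q := by rw [mul_one, Nat.abs_cast]
            _ ≤ _ := by
                rw [hm]
                exact_mod_cast hq2
        exact_mod_cast h2
      have hKpos : 0 < K := by
        rw [hK]
        positivity
      have h1 : |K * p i + w' i| ≤ K * (((N + 1) ^ m : ℕ) + 1) + |w' i| := by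
        refine (abs_add_le _ _).trans ?_
        rw [abs_mul, abs_of_pos hKpos]
        have := mul_le_mul_of_nonneg_left hpi hKpos.le
        linarith
      have h2 := hw1 i
      have h3 : K * (((N + 1) ^ m : ℕ) + 1) + B ≤ ((bas N (Fintype.card ι)) ^ (z + 1) : ℕ) := by
        rw [pow_succ, ← hB, hK, ← hm]
        unfold bas
        push_cast
        have hB1' : (1 : ℤ) ≤ B := by exact_mod_cast hB1
        have hX : (0 : ℤ) ≤ ((N : ℤ) + 1) ^ m := by positivity
        nlinarith [mul_nonneg (sub_nonneg.mpr hB1') hX, mul_nonneg (mul_nonneg (Nat.cast_nonneg (α := ℤ) N) (by linarith : (0:ℤ) ≤ B)) hX, mul_nonneg (Nat.cast_nonneg (α := ℤ) N) (by linarith : (0:ℤ) ≤ B)]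
      linarith
    · -- the signs
      have hsum : (q : ℝ) / M * ∑ i, (c i : ℝ) * α i = ((∑ i, c i * p i : ℤ) : ℝ) +
          ∑ i, (c i : ℝ) * α' i := by
        push_cast
        rw [mul_sum, ← sum_add_distrib]
        refine sum_congr rfl fun i _ => ?_
        rw [hα']
        ring
      have hqM : 0 < (q : ℝ) / M := div_pos (by exact_mod_cast hq1) hMpos
      have hsmall : |∑ i, (c i : ℝ) * α' i| < 1 := by
        refine lt_of_le_of_lt (abs_sum_le c α' (1 / ((N + 1 : ℕ) : ℝ)) hc
          (fun i => (hp' i).le) (by positivity)) ?_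
        rw [mul_one_div, div_lt_one (by positivity)]
        push_cast
        linarith
      have hw : ∑ i, c i * (K * p i + w' i) = K * (∑ i, c i * p i) + ∑ i, c i * w' i := by
        rw [mul_sum, ← sum_add_distrib]
        refine sum_congr rfl fun i _ => ?_
        ring
      have hws : |∑ i, c i * w' i| < K := by
        have h1 : |∑ i, c i * w' i| ≤ N * B := by
          calc |∑ i, c i * w' i| ≤ ∑ i, |c i * w' i| := abs_sum_le_sum_abs _ _
            _ ≤ ∑ i, |c i| * B := by
                refine sum_le_sum fun i _ => ?_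
                rw [abs_mul]
                exact mul_le_mul_of_nonneg_left (by have := hw1 i; linarith) (abs_nonneg _)
            _ = (∑ i, |c i|) * B := by rw [sum_mul]
            _ ≤ N * B := mul_le_mul_of_nonneg_right hc (by positivity)
        rw [hK]
        linarith
      rw [abs_lt] at hsmall hws
      have hKpos : 0 < K := by
        rw [hK]
        positivity
      simp only [hw]
      obtain ⟨s, hs⟩ : ∃ s, s = ∑ i, c i * p i := ⟨_, rfl⟩
      rw [← hs] at hsum ⊢
      rcases lt_trichotomy s 0 with h | h | h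
      · have hs1 : (s : ℝ) ≤ -1 := by exact_mod_cast (by omega : s ≤ -1)
        have hneg : ∑ i, (c i : ℝ) * α i < 0 := by
          by_contra hcon
          push Not at hcon
          have := mul_nonneg hqM.le hcon
          rw [hsum] at this
          linarith
        exact ⟨fun h' => absurd h' (not_lt.mpr hneg.le), fun h' => absurd h' hneg.ne⟩
      · rw [h, mul_zero, zero_add]
        rw [h, Int.cast_zero, zero_add] at hsum
        obtain ⟨k1, k2⟩ := hw2 c hc
        refine ⟨fun h' => k1 ?_, fun h' => k2 ?_⟩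
        · rw [← hsum]
          exact mul_pos hqM h'
        · rw [← hsum, h', mul_zero]
      · have hs1 : (1 : ℝ) ≤ (s : ℝ) := by exact_mod_cast (by omega : 1 ≤ s)
        have hpos : 0 < ∑ i, (c i : ℝ) * α i := by
          by_contra hcon
          push Not at hcon
          have : (q : ℝ) / M * ∑ i, (c i : ℝ) * α i ≤ 0 :=
            mul_nonpos_of_nonneg_of_nonpos hqM.le hcon
          rw [hsum] at this
          linarith
        refine ⟨fun _ => ?_, fun h' => absurd h' hpos.ne'⟩
        have : K * 1 ≤ K * s := mul_le_mul_of_nonneg_left (by omega) hKpos.le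
        linarith [hws.1]

/-- Every real vector can be replaced by an integral vector with entries of
`O(m ^ 2 log N)` bits which has the same sign on all integral vectors of norm at most `N`. -/
theorem rounding (N : ℕ) (α : ι → ℝ) :
    ∃ w : ι → ℤ, (∀ i, (w i).natAbs < (bas N (Fintype.card ι)) ^ Fintype.card ι) ∧
      ∀ c : ι → ℤ, ∑ i, |c i| ≤ (N : ℤ) →
        (0 ≤ ∑ i, (c i : ℝ) * α i ↔ 0 ≤ ∑ i, c i * w i) := by
  classical
  obtain ⟨w, h1, h2⟩ := round_aux N (Fintype.card ι) α (by
    refine (card_le_card (filter_subset _ _)).trans ?_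
    rw [card_univ])
  refine ⟨w, fun i => ?_, fun c hc => ?_⟩
  · have := h1 i
    rw [Int.abs_eq_natAbs] at this
    omega
  · constructor
    · intro h
      rcases h.lt_or_eq with h | h
      · exact ((h2 c hc).1 h).le
      · exact ((h2 c hc).2 h.symm).ge
    · intro h
      by_contra hcon
      push Not at hcon
      have h3 := (h2 (fun i => -c i) (by simpa using hc)).1 (by
        push_cast
        simp only [neg_mul, sum_neg_distrib]
        linarith)
      simp only [neg_mul, sum_neg_distrib] at h3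
      linarith

end Pool.Agent.Helper9.SR
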