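import Pool.Agent.Helper9.SR.Main

/-!
# The integral square root in polynomial time; square classes
-/

set_option autoImplicit false

namespace Pool.Agent.Helper9.SR

open N68a2faeb Pool.Agent.Helper36.PT Pool.Agent.Helper73.ETSP

variable {α β γ : Type} [Enc α] [Enc β] [Enc γ]

/-- the integral square root -/
def bSqrt (x : BN) : BN := BN.mk (Nat.sqrt x.val)

open Classical in
/-- one step of the computation of the square root -/
noncomputable def sqStep (x : BN) (i : ℕ) (r : BN) : BN :=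
  if (2 * r.val + 1) * (2 * r.val + 1) * 2 ^ (2 * (x.val.size - 1 - i)) ≤ x.val then
    BN.mk (2 * r.val + 1) else BN.mk (2 * r.val)

theorem sqrt_step (y : ℕ) : Nat.sqrt y = if (2 * Nat.sqrt (y / 4) + 1) * (2 * Nat.sqrt (y / 4) + 1)
    ≤ y then 2 * Nat.sqrt (y / 4) + 1 else 2 * Nat.sqrt (y / 4) := by
  have h1 := Nat.sqrt_le (y / 4)
  have h2 := Nat.lt_succ_sqrt (y / 4)
  obtain ⟨r, hr⟩ : ∃ r, r = Nat.sqrt (y / 4) := ⟨_, rfl⟩
  rw [← hr] at h1 h2 ⊢
  have h3 : 4 * (r * r) ≤ y := by omega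
  have h4 : y < 4 * ((r + 1) * (r + 1)) := by
    have : y / 4 + 1 ≤ (r + 1) * (r + 1) := h2
    omega
  split_ifs with h
  · rw [eq_comm, Nat.eq_sqrt]
    refine ⟨h, ?_⟩
    nlinarith
  · rw [eq_comm, Nat.eq_sqrt]
    push Not at h
    refine ⟨by nlinarith, h⟩

theorem recN_sqrt (x : BN) (i : ℕ) (hi : i ≤ x.val.size) :
    recN (BN.mk 0) (sqStep x) i = BN.mk (Nat.sqrt (x.val / 2 ^ (2 * (x.val.size - i)))) := by
  induction i with
  | zero =>
    have h : x.val / 2 ^ (2 * (x.val.size - 0)) = 0 := by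
      rw [Nat.div_eq_of_lt]
      refine lt_of_lt_of_le (Nat.lt_size_self x.val) (Nat.pow_le_pow_right (by norm_num) (by omega))
    rw [h]
    rfl
  | succ i ih =>
    change sqStep x i (recN (BN.mk 0) (sqStep x) i) = _
    rw [ih (by omega)]
    unfold sqStep
    have h1 : x.val / 2 ^ (2 * (x.val.size - i)) = x.val / 2 ^ (2 * (x.val.size - (i + 1))) / 4 := by
      rw [Nat.div_div_eq_div_mul]
      congr 1
      rw [show 2 * (x.val.size - i) = 2 * (x.val.size - (i + 1)) + 2 by omega, pow_add]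
      norm_num
    have h2 : x.val.size - 1 - i = x.val.size - (i + 1) := by omega
    rw [h2, h1]
    have h3 := sqrt_step (x.val / 2 ^ (2 * (x.val.size - (i + 1))))
    obtain ⟨y, hy⟩ : ∃ y, y = x.val / 2 ^ (2 * (x.val.size - (i + 1))) := ⟨_, rfl⟩
    rw [← hy] at h3 ⊢
    dsimp only
    have h4 : ((2 * Nat.sqrt (y / 4) + 1) * (2 * Nat.sqrt (y / 4) + 1) *
        2 ^ (2 * (x.val.size - (i + 1))) ≤ x.val) ↔
        (2 * Nat.sqrt (y / 4) + 1) * (2 * Nat.sqrt (y / 4) + 1) ≤ y := by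
      rw [hy, ← Nat.le_div_iff_mul_le (by positivity)]
    rw [h3]
    by_cases h5 : (2 * Nat.sqrt (y / 4) + 1) * (2 * Nat.sqrt (y / 4) + 1) ≤ y
    · rw [if_pos (h4.2 h5), if_pos h5]
    · rw [if_neg (fun h => h5 (h4.1 h)), if_neg h5]

@[fun_prop] theorem PolyTime.bSqrt {f : α → BN} (hf : PolyTime f) :
    PolyTime (fun a => bSqrt (f a)) := by
  classical
  have hs : PolyTime (fun a => (f a).val.size) := PolyTime.bnSize hf
  have h0 : PolyTime (fun p : (α × ℕ) × BN => f p.1.1) := hf.comp (by fun_prop)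
  have h1 : PolyTime (fun p : (α × ℕ) × BN => BN.mk (2 * p.2.val + 1)) := by
    have : PolyTime (fun p : (α × ℕ) × BN => BN.mk (((BN.mk 2).val * p.2.val) + (BN.mk 1).val)) :=
      PolyTime.bnAdd (PolyTime.bnMul (PolyTime.const _) PolyTime.snd) (PolyTime.const _)
    exact this
  have h2 : PolyTime (fun p : (α × ℕ) × BN => BN.mk (2 * p.2.val)) := by
    have : PolyTime (fun p : (α × ℕ) × BN => BN.mk ((BN.mk 2).val * p.2.val)) :=
      PolyTime.bnMul (PolyTime.const _) PolyTime.snd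
    exact this
  have h3 : PolyTime (fun p : (α × ℕ) × BN => 2 * ((f p.1.1).val.size - 1 - p.1.2)) := by
    have : PolyTime (fun p : (α × ℕ) × BN => (f p.1.1).val.size) := PolyTime.bnSize h0
    fun_prop
  have h4 : PolyTime (fun p : (α × ℕ) × BN => BN.mk ((2 * p.2.val + 1) * (2 * p.2.val + 1) *
      2 ^ (2 * ((f p.1.1).val.size - 1 - p.1.2)))) := PolyTime.bnShift (PolyTime.bnMul h1 h1) h3
  have hh : PolyTime (fun p : (α × ℕ) × BN => sqStep (f p.1.1) p.1.2 p.2) := by
    unfold sqStep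
    exact PolyTime.ite' (PolyTime.pBnLe h4 h0) h1 h2
  have hr := PolyTime.recN (n := fun a => (f a).val.size) (g := fun _ => BN.mk 0)
    (h := fun a => sqStep (f a)) hs (PolyTime.const _) hh
    ⟨fun a => esz (f a), hf.bdd, fun a i hi => by
      rw [recN_sqrt (f a) i hi, esz_bn]
      change _ ≤ esz (f a)
      rw [esz_bn']
      exact Nat.size_le_size ((Nat.sqrt_le_self _).trans (Nat.div_le_self _ _))⟩
  refine hr.congr fun a => ?_
  rw [recN_sqrt (f a) _ le_rfl]
  simp [Pool.Agent.Helper9.SR.bSqrt]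

/-- perfect squares -/
def bIsSq (x : BN) : Prop := (bMul (bSqrt x) (bSqrt x)).val = x.val

theorem bIsSq_iff (x : BN) : bIsSq x ↔ ∃ r : ℕ, r * r = x.val := by
  unfold bIsSq bMul bSqrt
  constructor
  · intro h
    exact ⟨_, h⟩
  · rintro ⟨r, hr⟩
    dsimp only
    rw [← hr, Nat.sqrt_eq]

@[fun_prop] theorem PolyTime.bIsSq {f : α → BN} (hf : PolyTime f) :
    PolyTime (fun a => bIsSq (f a)) := by
  have := arith
  unfold Pool.Agent.Helper9.SR.bIsSq
  exact PolyTime.pBnEq (by fun_prop) hf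

/-- `a` is a square times a number which is at most `B` -/
def SmallSq (B a : ℕ) : Prop := ∃ b y : ℕ, b ≤ B ∧ a = b * y ^ 2

theorem smallSq_iff (B a : ℕ) (hB : 1 ≤ B) :
    SmallSq B a ↔ ∃ b, b < B + 1 ∧ 1 ≤ b ∧ ∃ r : ℕ, r * r = a * b := by
  constructor
  · rintro ⟨b, y, hb, rfl⟩
    rcases Nat.eq_zero_or_pos b with h | h
    · refine ⟨1, by omega, le_rfl, 0, ?_⟩
      rw [h]
      simp
    · exact ⟨b, by omega, h, b * y, by ring⟩
  · rintro ⟨b, hb, hb1, r, hr⟩
    rcases Nat.eq_zero_or_pos a with h | h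
    · exact ⟨0, 0, by omega, by simpa using h⟩
    obtain ⟨s, u, hsu, hs⟩ := Nat.sq_mul_squarefree a
    have hu : 0 < u := by
      rcases Nat.eq_zero_or_pos u with h1 | h1
      · rw [h1] at hsu
        simp at hsu
        omega
      · exact h1
    have h1 : u ^ 2 ∣ r ^ 2 := by
      rw [sq r, hr, ← hsu, mul_assoc]
      exact Dvd.intro _ rfl
    have h2 : u ∣ r := (Nat.pow_dvd_pow_iff (by norm_num)).mp h1
    obtain ⟨r', rfl⟩ := h2
    have h3 : s * b = r' ^ 2 := by
      have h4 : u ^ 2 * (s * b) = u ^ 2 * r' ^ 2 := by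
        calc u ^ 2 * (s * b) = (u ^ 2 * s) * b := by ring
          _ = a * b := by rw [hsu]
          _ = u * r' * (u * r') := hr.symm
          _ = u ^ 2 * r' ^ 2 := by ring
      exact Nat.eq_of_mul_eq_mul_left (by positivity) h4
    have h5 : s ∣ r' := by
      rw [← hs.dvd_pow_iff_dvd (n := 2) (by norm_num)]
      exact Dvd.intro _ h3
    obtain ⟨v, rfl⟩ := h5
    have hs0 : 0 < s := Nat.pos_of_ne_zero hs.ne_zero
    have h6 : b = s * v ^ 2 := by
      have h7 : s * b = s * (s * v ^ 2) := by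
        rw [h3]
        ring
      exact Nat.eq_of_mul_eq_mul_left hs0 h7
    have hv : 0 < v := by
      rcases Nat.eq_zero_or_pos v with h8 | h8
      · rw [h8] at h6
        simp at h6
        omega
      · exact h8
    refine ⟨s, u, ?_, ?_⟩
    · have : s * 1 ≤ s * v ^ 2 := Nat.mul_le_mul_left _ (Nat.one_le_pow _ _ hv)
      omega
    · rw [← hsu]
      ring

end Pool.Agent.Helper9.SR
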